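import Pool.Agent.H9.S6.H67G

/-!
# Two lines through an exact point have different closed planes of directions

`s`, `t` is a closed plane of directions: a function of the line and of the window which contains
the direction of the fan at the exact point. If there are no visible closed planks of the
corresponding thickness, the slopes `s` of two lines through an exact point are different.
-/

set_option autoImplicit false

namespace Pool.HP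

open Finset Real
open Pool.Agent.H49.Ent Pool.Agent.H32.Dense Pool.STK Pool.KA Pool.KSAT Pool.K3 Pool.K2S Pool.PB
  Pool.KS6 Pool.S6N

/-- Closed planes of directions on the windows `v`, with a visible slope `s'` near the slope `s`. -/
structure CPl {J : ℕ} (F : Fam 3 J) (A : F.Ω → Prop) (i0 iu iN : Fin 3)
    (v V h : ℕ) (D : ℝ) (al nu kk bb s' a s t : F.Ω → ℝ) : Prop where
  hi : ∀ j : Fin 3, j = i0 ∨ j = iu ∨ j = iN
  fp : ∃ φ : (Fin 3 → ℤ) × (ℕ × F.ζ) → (ℝ × ℝ) × (ℝ × ℝ) × ℝ, ∀ ω, A ω →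
    ((al ω, nu ω), (kk ω, bb ω), s' ω) = φ (ptq F J ω)
  fs : ∃ ψ : ((Fin 3 → ℝ) × (Fin 3 → ℝ)) × F.ζ × ℕ → ℝ × ℝ × ℝ, ∀ ω, A ω →
    (a ω, s ω, t ω) = ψ (slam F v ω)
  on1 : ∀ ω, A ω → |F.d ω iu - al ω * F.d ω i0 - nu ω| ≤ D / 2 ^ V
  on2 : ∀ ω, A ω → |F.d ω iN - s' ω * F.d ω iu - kk ω * F.d ω i0 - bb ω| ≤ D / 2 ^ (V + h)
  b1 : ∀ ω, A ω → |al ω| ≤ 2
  b2 : ∀ ω, A ω → |kk ω + s' ω * al ω| ≤ 2
  b3 : ∀ ω, A ω → |s ω| ≤ D
  ca : ∀ ω, A ω → |al ω - a ω| ≤ D / 2 ^ V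
  cs : ∀ ω, A ω → |s ω - s' ω| ≤ D / 2 ^ h
  cl : ∀ ω, A ω → |kk ω + s' ω * al ω - s ω * al ω - t ω| ≤ D / 2 ^ (V + h)

theorem CPl.sub {J : ℕ} {F : Fam 3 J} {A B : F.Ω → Prop} {i0 iu iN : Fin 3}
    {v V h : ℕ} {D : ℝ} {al nu kk bb s' a s t : F.Ω → ℝ}
    (hC : CPl F A i0 iu iN v V h D al nu kk bb s' a s t) (hB : Sub B A) :
    CPl F B i0 iu iN v V h D al nu kk bb s' a s t := by
  obtain ⟨h1, ⟨φ, h2⟩, ⟨ψ, h3⟩, h4, h5, h6, h7, h8, h9, h10, h11⟩ := hC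
  exact ⟨h1, ⟨φ, fun ω hω => h2 ω (hB ω hω)⟩, ⟨ψ, fun ω hω => h3 ω (hB ω hω)⟩,
    fun ω hω => h4 ω (hB ω hω), fun ω hω => h5 ω (hB ω hω), fun ω hω => h6 ω (hB ω hω),
    fun ω hω => h7 ω (hB ω hω), fun ω hω => h8 ω (hB ω hω), fun ω hω => h9 ω (hB ω hω),
    fun ω hω => h10 ω (hB ω hω), fun ω hω => h11 ω (hB ω hω)⟩

/-- **Closed planes of directions** on the windows `v`: the own slopes `al`, `kN` and offsets `nu`,
`nN` are functions of the exact point; the label `a` of the direction and the plane `s`, `t` are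
functions of the line and of the window. -/
structure IPl {J : ℕ} (F : Fam 3 J) (A : F.Ω → Prop) (i0 iu iN : Fin 3)
    (v V h : ℕ) (D : ℝ) (al nu kN nN a s t : F.Ω → ℝ) : Prop where
  hi : ∀ j : Fin 3, j = i0 ∨ j = iu ∨ j = iN
  fp : ∃ φ : (Fin 3 → ℤ) × (ℕ × F.ζ) → (ℝ × ℝ) × ℝ × ℝ, ∀ ω, A ω →
    ((al ω, nu ω), kN ω, nN ω) = φ (ptq F J ω)
  fs : ∃ ψ : ((Fin 3 → ℝ) × (Fin 3 → ℝ)) × F.ζ × ℕ → ℝ × ℝ × ℝ, ∀ ω, A ω →
    (a ω, s ω, t ω) = ψ (slam F v ω)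
  on1 : ∀ ω, A ω → |F.d ω iu - al ω * F.d ω i0 - nu ω| ≤ D / 2 ^ V
  on2 : ∀ ω, A ω → |(F.d ω iN - kN ω * F.d ω i0 - nN ω) -
    s ω * (F.d ω iu - al ω * F.d ω i0 - nu ω)| ≤ D / 2 ^ (V + h)
  b1 : ∀ ω, A ω → |al ω| ≤ 2
  b2 : ∀ ω, A ω → |kN ω| ≤ 2
  b3 : ∀ ω, A ω → |s ω| ≤ D
  ca : ∀ ω, A ω → |al ω - a ω| ≤ D / 2 ^ V
  cl : ∀ ω, A ω → |kN ω - s ω * al ω - t ω| ≤ D / 2 ^ (V + h)

theorem IPl.sub {J : ℕ} {F : Fam 3 J} {A B : F.Ω → Prop} {i0 iu iN : Fin 3}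
    {v V h : ℕ} {D : ℝ} {al nu kN nN a s t : F.Ω → ℝ}
    (hC : IPl F A i0 iu iN v V h D al nu kN nN a s t) (hB : Sub B A) :
    IPl F B i0 iu iN v V h D al nu kN nN a s t := by
  obtain ⟨h1, ⟨φ, h2⟩, ⟨ψ, h3⟩, h4, h5, h6, h7, h8, h9, h10⟩ := hC
  exact ⟨h1, ⟨φ, fun ω hω => h2 ω (hB ω hω)⟩, ⟨ψ, fun ω hω => h3 ω (hB ω hω)⟩,
    fun ω hω => h4 ω (hB ω hω), fun ω hω => h5 ω (hB ω hω), fun ω hω => h6 ω (hB ω hω),
    fun ω hω => h7 ω (hB ω hω), fun ω hω => h8 ω (hB ω hω), fun ω hω => h9 ω (hB ω hω),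
    fun ω hω => h10 ω (hB ω hω)⟩

/-- One of finitely many parts of an event has its share of the mass. -/
theorem pick_part {Ω ι : Type} [Fintype Ω] {p : Ω → ℝ} (hp : IsLaw p) (s : Finset ι) {n : ℝ}
    (hn : (s.card : ℝ) ≤ n) (A : Ω → Prop) (B : ι → Ω → Prop) (h : ∀ ω, A ω → ∃ i ∈ s, B i ω)
    (hA : 0 < Pe p A) : ∃ i ∈ s, Pe p A ≤ n * Pe p (fun ω => A ω ∧ B i ω) := by
  classical
  by_contra hcon
  push Not at hcon
  have h1 := Pe_le_sumI hp.nonneg s A (fun i ω => A ω ∧ B i ω) (fun ω hω => by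
    obtain ⟨i, hi, hB⟩ := h ω hω
    exact ⟨i, hi, hω, hB⟩)
  have hs : s.Nonempty := by
    by_contra hs
    rw [Finset.not_nonempty_iff_eq_empty] at hs
    rw [hs, Finset.sum_empty] at h1
    linarith only [hA, h1]
  have hn0 : 0 < n := by
    have : (0 : ℝ) < s.card := by exact_mod_cast Finset.card_pos.2 hs
    linarith only [hn, this]
  have h2 : ∑ i ∈ s, Pe p (fun ω => A ω ∧ B i ω) < ∑ _i ∈ s, Pe p A / n := by
    refine Finset.sum_lt_sum_of_nonempty hs fun i hi => ?_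
    rw [lt_div_iff₀ hn0]
    linarith only [hcon, hi, hcon i hi]
  rw [Finset.sum_const, nsmul_eq_mul] at h2
  have h3 : (s.card : ℝ) * (Pe p A / n) ≤ Pe p A := by
    rw [mul_div_assoc', div_le_iff₀ hn0, mul_comm]
    exact mul_le_mul_of_nonneg_left hn hA.le
  linarith only [h1, h2, h3]

/-- A bounded function is near one of few constants on a large part of an event. -/
theorem pick_shift {Ω : Type} [Fintype Ω] {p : Ω → ℝ} (hp : IsLaw p) {A : Ω → Prop}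
    (hA : 0 < Pe p A) {D : ℝ} (hD : 0 ≤ D) (V : ℕ) (g : Ω → ℝ)
    (hg : ∀ ω, A ω → |g ω| ≤ D / 2 ^ V) :
    ∃ r : ℝ, |r| ≤ (D + 1) / 2 ^ V ∧ Pe p A ≤ (2 * D + 3) * Pe p (fun ω => A ω ∧ |g ω - r| ≤
      1 / 2 ^ V) := by
  classical
  have hV : (0 : ℝ) < 2 ^ V := by positivity
  obtain ⟨s, hs⟩ : ∃ s : Finset ℤ, s = Finset.Icc (-(⌊D⌋ + 1)) ⌊D⌋ := ⟨_, rfl⟩
  have hD0 : 0 ≤ ⌊D⌋ := Int.floor_nonneg.2 hD
  have hDf := Int.floor_le D
  have hDf' := Int.lt_floor_add_one D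
  have hc : (s.card : ℝ) ≤ 2 * D + 3 := by
    have e1 : s.card = (⌊D⌋ + 1 - (-(⌊D⌋ + 1))).toNat := by rw [hs, Int.card_Icc]
    have e2 : ((s.card : ℤ) : ℝ) = ((⌊D⌋ + 1 - (-(⌊D⌋ + 1)) : ℤ) : ℝ) := by
      rw [e1]
      congr 1
      exact Int.toNat_of_nonneg (by omega)
    have e3 : (s.card : ℝ) = ((s.card : ℤ) : ℝ) := by norm_cast
    rw [e3, e2]
    push_cast
    linarith only [hDf]
  obtain ⟨i, hi, hP⟩ := pick_part hp s hc A (fun i ω => ⌊(2 : ℝ) ^ V * g ω⌋ = i) (fun ω hω => by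
    refine ⟨_, ?_, rfl⟩
    have h1 := hg ω hω
    have h2 : |(2 : ℝ) ^ V * g ω| ≤ D := by
      rw [abs_mul, abs_of_pos hV]
      calc (2 : ℝ) ^ V * |g ω| ≤ 2 ^ V * (D / 2 ^ V) := mul_le_mul_of_nonneg_left h1 hV.le
        _ = D := by field_simp
    rw [abs_le] at h2
    rw [hs, Finset.mem_Icc]
    constructor
    · rw [Int.le_floor]
      push_cast
      linarith only [hDf', h2]
    · exact Int.floor_le_floor h2.2) hA
  rw [hs, Finset.mem_Icc] at hi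
  have hi1 : ((-(⌊D⌋ + 1) : ℤ) : ℝ) ≤ i := by exact_mod_cast hi.1
  have hi2 : (i : ℝ) ≤ ⌊D⌋ := by exact_mod_cast hi.2
  push_cast at hi1
  refine ⟨i / 2 ^ V, ?_, hP.trans ?_⟩
  · rw [abs_div, abs_of_pos hV]
    refine div_le_div_of_nonneg_right ?_ hV.le
    rw [abs_le]
    constructor <;> linarith
  · refine mul_le_mul_of_nonneg_left (Pe_mono hp ?_) (by linarith only [hD])
    rintro ω ⟨h1, h2⟩
    refine ⟨h1, ?_⟩
    have f1 := Int.floor_le ((2 : ℝ) ^ V * g ω)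
    have f2 := Int.lt_floor_add_one ((2 : ℝ) ^ V * g ω)
    rw [h2] at f1 f2
    have e1 : g ω - i / 2 ^ V = (2 ^ V * g ω - i) / 2 ^ V := by field_simp
    rw [e1, abs_div, abs_of_pos hV]
    refine div_le_div_of_nonneg_right ?_ hV.le
    rw [abs_le]
    constructor <;> linarith

section Core

variable {J : ℕ} {F : Fam 3 J} {A : F.Ω → Prop} {i0 iu iN : Fin 3}
  {v V h d : ℕ} {D : ℝ} {al nu kk bb s' a s t : F.Ω → ℝ}

/-- The cost. -/
noncomputable def Kc (D : ℝ) : ℝ := KC (D + 6) + Real.log (2 * D + 3)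

/-- **The core**: the visible slope `s'` is bounded by one. -/
theorem col_core (hC : CPl F A i0 iu iN v V h D al nu kk bb s' a s t)
    (hA : 0 < Pe F.p A) (h4 : V + h ≤ J)
    (h5 : v + V ≤ J) (hs1 : ∀ ω, A ω → |s' ω| ≤ 1) (hD : 1 ≤ D) (hd : 2 * D ≤ 2 ^ d)
    (hdy : d ≤ h) {P2 : ℕ} (hP : P2 + d ≤ v + (V + h)) (hPJ : P2 ≤ J) :
    ∃ B : F.Ω → Prop, Sub B A ∧ Real.exp (-Kc D) * Pe F.p A ≤ Pe F.p B ∧
      LABq F J i0 iu iN v 0 P2 2 B := by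
  classical
  have hV2 : (0 : ℝ) < 2 ^ V := by positivity
  obtain ⟨r, hr, hPr⟩ := pick_shift F.isLaw hA (by linarith only [hD] : (0 : ℝ) ≤ D) V
    (fun ω => al ω - a ω) hC.ca
  obtain ⟨A₁, hA₁⟩ : ∃ A₁ : F.Ω → Prop, A₁ = fun ω => A ω ∧ |(al ω - a ω) - r| ≤ 1 / 2 ^ V :=
    ⟨_, rfl⟩
  rw [← hA₁] at hPr
  have hS1 : Sub A₁ A := by rw [hA₁]; exact fun ω hω => hω.1
  have hA10 : 0 < Pe F.p A₁ := by
    by_contra hcon
    have : Pe F.p A₁ ≤ 0 := not_lt.1 hcon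
    nlinarith only [hA, hPr, hcon, hD]
  obtain ⟨φ, hφ⟩ := hC.fp
  obtain ⟨ψ, hψ⟩ := hC.fs
  -- the visible plank
  obtain ⟨Y, hY⟩ : ∃ Y : (Fin 3 → ℤ) × (ℕ × F.ζ) → Pln, Y = fun u =>
      ⟨(φ u).1.1, -(φ u).2.1.1, -(φ u).2.2,
        fun j => (u.1 j : ℝ) / 2 ^ J - (u.2.1 : ℝ) / 2 ^ J *
          (if j = iu then (φ u).1.2 else if j = iN then (φ u).2.1.2 + (φ u).2.2 * (φ u).1.2 else 0),
        fun j => if j = iu then (φ u).1.2 else
          if j = iN then (φ u).2.1.2 + (φ u).2.2 * (φ u).1.2 else 0⟩ := ⟨_, rfl⟩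
  obtain ⟨ζ, hζ⟩ : ∃ ζ : ((Fin 3 → ℝ) × (Fin 3 → ℝ)) × F.ζ × ℕ → Pln, ζ = fun u =>
      ⟨(ψ u).1 + r, -(ψ u).2.2, -(ψ u).2.1, 0, 0⟩ := ⟨_, rfl⟩
  have hi := hC.hi
  have n0u : iu ≠ i0 := by
    intro e
    subst e
    have h0 := hi 0
    have h1 := hi 1
    have h2 := hi 2
    omega
  have n0N : iN ≠ i0 := by
    intro e
    subst e
    have h0 := hi 0
    have h1 := hi 1
    have h2 := hi 2
    omega
  have nuN : iN ≠ iu := by
    intro e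
    subst e
    have h0 := hi 0
    have h1 := hi 1
    have h2 := hi 2
    omega
  have hY1 : ∀ ω, A ω → Y (ptq F J ω) = ⟨al ω, -kk ω, -s' ω,
      fun j => (⌊(2 : ℝ) ^ J * F.x ω j⌋ : ℝ) / 2 ^ J - F.t ω *
        (if j = iu then nu ω else if j = iN then bb ω + s' ω * nu ω else 0),
      fun j => if j = iu then nu ω else if j = iN then bb ω + s' ω * nu ω else 0⟩ := by
    intro ω hω
    rw [hY]
    beta_reduce
    rw [← hφ ω hω]
    rfl
  have hζ1 : ∀ ω, A ω → ζ (slam F v ω) = ⟨a ω + r, -t ω, -s ω, 0, 0⟩ := by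
    intro ω hω
    rw [hζ]
    beta_reduce
    rw [← hψ ω hω]
  have hJ2 : (0 : ℝ) < 2 ^ J := by positivity
  have near : ∀ ω (j : Fin 3), |F.x ω j - (⌊(2 : ℝ) ^ J * F.x ω j⌋ : ℝ) / 2 ^ J| ≤ 1 / 2 ^ J :=
    fun ω j => floor_near J (F.x ω j)
  have mono : ∀ {n m : ℕ} {K : ℝ}, 0 ≤ K → n ≤ m → K / (2 : ℝ) ^ m ≤ K / 2 ^ n := by
    intro n m K hK hnm
    exact div_le_div_of_nonneg_left hK (by positivity) (pow_le_pow_right₀ (by norm_num) hnm)
  have hInc : ∀ ω, A₁ ω → Inc i0 iu iN (J - (V + h)) V J (D + 6) (Y (ptq F J ω)) (F.t ω) (F.x ω)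
      (F.d ω) := by
    intro ω hω
    have hω' := hS1 ω hω
    rw [hY1 ω hω']
    have x0 := near ω i0
    have xu := near ω iu
    have xN := near ω iN
    have q1 := hC.b1 ω hω'
    have q2 := hC.b2 ω hω'
    have q3 := hs1 ω hω'
    have kk4 : |kk ω| ≤ 4 := by
      have e1 : kk ω = (kk ω + s' ω * al ω) - s' ω * al ω := by ring
      rw [e1]
      refine (abs_sub _ _).trans ?_
      rw [abs_mul]
      nlinarith only [q2, q3, q1, abs_nonneg (s' ω), abs_nonneg (al ω)]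
    refine ⟨q1, ?_, ?_, ?_, ?_, ?_, ?_, ?_, ?_⟩
    · show |-kk ω| ≤ 4
      rw [abs_neg]
      exact kk4
    · show |-s' ω| ≤ 4
      rw [abs_neg]
      linarith only [q3]
    · show |F.x ω i0 - ((⌊(2 : ℝ) ^ J * F.x ω i0⌋ : ℝ) / 2 ^ J - F.t ω *
        (if i0 = iu then nu ω else if i0 = iN then bb ω + s' ω * nu ω else 0) + F.t ω *
        (if i0 = iu then nu ω else if i0 = iN then bb ω + s' ω * nu ω else 0))| ≤ _
      rw [sub_add_cancel]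
      refine x0.trans ((mono zero_le_one (Nat.sub_le J (V + h))).trans ?_)
      exact div_le_div_of_nonneg_right (by linarith only [hD]) (by positivity)
    · show |fu i0 iu (al ω) (F.x ω) - fu i0 iu (al ω) (fun j =>
        (⌊(2 : ℝ) ^ J * F.x ω j⌋ : ℝ) / 2 ^ J - F.t ω *
        (if j = iu then nu ω else if j = iN then bb ω + s' ω * nu ω else 0) + F.t ω *
        (if j = iu then nu ω else if j = iN then bb ω + s' ω * nu ω else 0))| ≤ _
      simp only [sub_add_cancel]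
      unfold fu
      have e1 : F.x ω iu - al ω * F.x ω i0 - ((⌊(2 : ℝ) ^ J * F.x ω iu⌋ : ℝ) / 2 ^ J -
          al ω * ((⌊(2 : ℝ) ^ J * F.x ω i0⌋ : ℝ) / 2 ^ J)) =
          (F.x ω iu - (⌊(2 : ℝ) ^ J * F.x ω iu⌋ : ℝ) / 2 ^ J) -
            al ω * (F.x ω i0 - (⌊(2 : ℝ) ^ J * F.x ω i0⌋ : ℝ) / 2 ^ J) := by ring
      rw [e1]
      refine (abs_sub _ _).trans ?_
      rw [abs_mul]
      have g1 : |al ω| * |F.x ω i0 - (⌊(2 : ℝ) ^ J * F.x ω i0⌋ : ℝ) / 2 ^ J| ≤ 2 * (1 / 2 ^ J) :=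
        mul_le_mul q1 x0 (abs_nonneg _) (by norm_num)
      have g2 : (D + 6) / (2 : ℝ) ^ J ≤ (D + 6) / 2 ^ (J - (V + h) + V) :=
        mono (by linarith only [hD]) (by omega)
      have g3 : 3 / (2 : ℝ) ^ J ≤ (D + 6) / 2 ^ J :=
        div_le_div_of_nonneg_right (by linarith only [hD]) hJ2.le
      have g4 : 3 / (2 : ℝ) ^ J = 1 / 2 ^ J + 2 * (1 / 2 ^ J) := by ring
      linarith only [xu, g1, g2, g3, g4]
    · show |fn i0 iu iN (-kk ω) (-s' ω) (F.x ω) - fn i0 iu iN (-kk ω) (-s' ω) (fun j =>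
        (⌊(2 : ℝ) ^ J * F.x ω j⌋ : ℝ) / 2 ^ J - F.t ω *
        (if j = iu then nu ω else if j = iN then bb ω + s' ω * nu ω else 0) + F.t ω *
        (if j = iu then nu ω else if j = iN then bb ω + s' ω * nu ω else 0))| ≤ _
      simp only [sub_add_cancel]
      unfold fn
      have e1 : -kk ω * F.x ω i0 + -s' ω * F.x ω iu + F.x ω iN -
          (-kk ω * ((⌊(2 : ℝ) ^ J * F.x ω i0⌋ : ℝ) / 2 ^ J) +
            -s' ω * ((⌊(2 : ℝ) ^ J * F.x ω iu⌋ : ℝ) / 2 ^ J) +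
            (⌊(2 : ℝ) ^ J * F.x ω iN⌋ : ℝ) / 2 ^ J) =
          (-kk ω * (F.x ω i0 - (⌊(2 : ℝ) ^ J * F.x ω i0⌋ : ℝ) / 2 ^ J) +
            -s' ω * (F.x ω iu - (⌊(2 : ℝ) ^ J * F.x ω iu⌋ : ℝ) / 2 ^ J)) +
            (F.x ω iN - (⌊(2 : ℝ) ^ J * F.x ω iN⌋ : ℝ) / 2 ^ J) := by ring
      rw [e1]
      refine (abs_add_le _ _).trans ?_
      have g0 := abs_add_le (-kk ω * (F.x ω i0 - (⌊(2 : ℝ) ^ J * F.x ω i0⌋ : ℝ) / 2 ^ J))
        (-s' ω * (F.x ω iu - (⌊(2 : ℝ) ^ J * F.x ω iu⌋ : ℝ) / 2 ^ J))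
      rw [abs_mul, abs_mul, abs_neg, abs_neg] at g0
      have g1 : |kk ω| * |F.x ω i0 - (⌊(2 : ℝ) ^ J * F.x ω i0⌋ : ℝ) / 2 ^ J| ≤ 4 * (1 / 2 ^ J) :=
        mul_le_mul kk4 x0 (abs_nonneg _) (by norm_num)
      have g2 : |s' ω| * |F.x ω iu - (⌊(2 : ℝ) ^ J * F.x ω iu⌋ : ℝ) / 2 ^ J| ≤ 1 * (1 / 2 ^ J) :=
        mul_le_mul q3 xu (abs_nonneg _) (by norm_num)
      have g3 : 6 / (2 : ℝ) ^ J ≤ (D + 6) / 2 ^ J :=
        div_le_div_of_nonneg_right (by linarith only [hD]) hJ2.le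
      have g4 : 6 / (2 : ℝ) ^ J = 4 * (1 / 2 ^ J) + 1 * (1 / 2 ^ J) + 1 / 2 ^ J := by ring
      linarith only [xN, g0, g1, g2, g3, g4]
    · show |F.d ω i0 - (if i0 = iu then nu ω else if i0 = iN then bb ω + s' ω * nu ω else 0)| ≤ _
      rw [if_neg n0u.symm, if_neg n0N.symm, sub_zero]
      exact (F.dir ω i0).trans (by linarith only [hD])
    · show |fu i0 iu (al ω) (F.d ω) - fu i0 iu (al ω) (fun j => if j = iu then nu ω else
        if j = iN then bb ω + s' ω * nu ω else 0)| ≤ _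
      unfold fu
      beta_reduce
      rw [if_pos rfl, if_neg n0u.symm, if_neg n0N.symm, mul_zero, sub_zero]
      refine (hC.on1 ω hω').trans ?_
      exact div_le_div_of_nonneg_right (by linarith only) (by positivity)
    · show |fn i0 iu iN (-kk ω) (-s' ω) (F.d ω) - fn i0 iu iN (-kk ω) (-s' ω) (fun j =>
        if j = iu then nu ω else if j = iN then bb ω + s' ω * nu ω else 0)| ≤ _
      unfold fn
      beta_reduce
      rw [if_neg n0u.symm, if_neg n0N.symm, if_pos rfl, if_neg nuN, if_pos rfl]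
      have e1 : -kk ω * F.d ω i0 + -s' ω * F.d ω iu + F.d ω iN -
          (-kk ω * 0 + -s' ω * nu ω + (bb ω + s' ω * nu ω)) =
          F.d ω iN - s' ω * F.d ω iu - kk ω * F.d ω i0 - bb ω := by ring
      rw [e1]
      refine (hC.on2 ω hω').trans ?_
      have e2 : (2 : ℝ) ^ J = 2 ^ (J - (V + h)) * 2 ^ (V + h) := by
        rw [← pow_add]
        congr 1
        omega
      have e3 : (D + 6) * 2 ^ (J - (V + h)) / (2 : ℝ) ^ J = (D + 6) / 2 ^ (V + h) := by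
        rw [e2]
        field_simp
      rw [e3]
      exact div_le_div_of_nonneg_right (by linarith only) (by positivity)
  have hyp : ∀ ω, A₁ ω → |(Y (ptq F J ω)).e - (ζ (slam F v ω)).e| ≤ 1 / 2 ^ V ∧
      |(Y (ptq F J ω)).s - (ζ (slam F v ω)).s| ≤ 1 / 2 ^ (h - d) ∧
      |Ae (Y (ptq F J ω)).c (Y (ptq F J ω)).s (ζ (slam F v ω)).c (ζ (slam F v ω)).s
        (ζ (slam F v ω)).e| ≤ 1 / 2 ^ (V + h - d) := by
    intro ω hω
    have hω' := hS1 ω hω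
    have hω2 : |(al ω - a ω) - r| ≤ 1 / 2 ^ V := by
      rw [hA₁] at hω
      exact hω.2
    rw [hY1 ω hω', hζ1 ω hω']
    have key : ∀ (n : ℕ) (K : ℝ), d ≤ n → K ≤ 2 ^ d → K / 2 ^ n ≤ 1 / (2 : ℝ) ^ (n - d) := by
      intro n K hn hK
      have e1 : (2 : ℝ) ^ n = 2 ^ d * 2 ^ (n - d) := by
        rw [← pow_add]
        congr 1
        omega
      rw [e1, div_le_div_iff₀ (by positivity) (by positivity), one_mul]
      exact mul_le_mul_of_nonneg_right hK (by positivity)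
    refine ⟨?_, ?_, ?_⟩
    · show |al ω - (a ω + r)| ≤ _
      have e1 : al ω - (a ω + r) = (al ω - a ω) - r := by ring
      rw [e1]
      exact hω2
    · show |-s' ω - -s ω| ≤ _
      have e1 : -s' ω - -s ω = s ω - s' ω := by ring
      rw [e1]
      exact (hC.cs ω hω').trans (key _ _ hdy (by linarith only [hD, hd]))
    · show |Ae (-kk ω) (-s' ω) (-t ω) (-s ω) (a ω + r)| ≤ _
      unfold Ae
      have e1 : -kk ω - -t ω + (-s' ω - -s ω) * (a ω + r) =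
          -(kk ω + s' ω * al ω - s ω * al ω - t ω) - (s ω - s' ω) * ((al ω - a ω) - r) := by ring
      rw [e1]
      refine (abs_sub _ _).trans ?_
      rw [abs_neg, abs_mul]
      have g1 := hC.cl ω hω'
      have g2 : |s ω - s' ω| * |(al ω - a ω) - r| ≤ D / 2 ^ h * (1 / 2 ^ V) :=
        mul_le_mul (hC.cs ω hω') hω2 (abs_nonneg _) (by positivity)
      have g3 : D / (2 : ℝ) ^ h * (1 / 2 ^ V) = D / 2 ^ (V + h) := by
        rw [div_mul_div_comm, mul_one, ← pow_add, Nat.add_comm]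
      have g4 : 2 * D / (2 : ℝ) ^ (V + h) = D / 2 ^ (V + h) + D / 2 ^ (V + h) := by ring
      have g5 := key (V + h) (2 * D) (by omega) hd
      linarith only [g1, g2, g3, g4, g5]
  obtain ⟨B, hB1, hB2, hB3⟩ := lab_prod F le_rfl hi (v := v) (W := J - (V + h)) (lam := V)
    (P := J) (l2 := V) (sg := h - d) (ag := V + h - d) (P2 := P2) (by linarith only [hD] : 1 ≤ D + 6)
    hA10 hInc (φ := Y) (fun ω _ => rfl) (ζ := ζ) hyp le_rfl h5 (by omega) (by omega) (by omega)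
    hPJ
  refine ⟨B, fun ω hω => hS1 ω (hB1 ω hω), ?_, ?_⟩
  · rw [← exp_KC] at hB2
    refine le_trans ?_ hB2
    have e1 : Real.exp (-Kc D) = Real.exp (-KC (D + 6)) / (2 * D + 3) := by
      unfold Kc
      rw [neg_add, Real.exp_add, Real.exp_neg (Real.log (2 * D + 3)),
        Real.exp_log (by linarith only [hD])]
      rfl
    rw [e1, div_mul_eq_mul_div, mul_div_assoc]
    refine mul_le_mul_of_nonneg_left ?_ (Real.exp_pos _).le
    rw [div_le_iff₀ (by linarith only [hD]), mul_comm]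
    exact hPr
  · obtain ⟨y₁, k1, k2⟩ := hB3
    refine ⟨y₁, fun ω hω => ?_, k2⟩
    obtain ⟨c1, c2, c3, c4, c5, c6, c7, c8, c9⟩ := k1 ω hω
    refine ⟨c1, c2, c3, c4, c5.trans (mono (by norm_num) (by omega)), c6, c7,
      c8.trans (mono (by norm_num) (by omega)), c9⟩

end Core

section Main

variable {J : ℕ} {F : Fam 3 J} {A : F.Ω → Prop} {i0 iu iN : Fin 3}
  {v V h d : ℕ} {D : ℝ}

/-- The constant. -/
noncomputable def Dc (D : ℝ) : ℝ := 4 * (D + 1) ^ 2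

theorem dc_one {D : ℝ} (hD : 1 ≤ D) : 1 ≤ Dc D := by
  unfold Dc
  nlinarith only [hD]

theorem dc_le {D : ℝ} (hD : 1 ≤ D) : D ≤ Dc D := by
  unfold Dc
  nlinarith only [hD]

/-- A visible slope near the invisible one. -/
theorem IPl.chg {al nu kN nN a s t : F.Ω → ℝ} (hI : IPl F A i0 iu iN v V h D al nu kN nN a s t)
    (hD : 1 ≤ D) {z : F.Ω → ℝ}
    (hz : ∃ χ : (Fin 3 → ℤ) × (ℕ × F.ζ) → ℝ, ∀ ω, A ω → z ω = χ (ptq F J ω))
    (hzs : ∀ ω, A ω → |s ω - z ω| ≤ 1 / 2 ^ h) :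
    CPl F A i0 iu iN v V h (Dc D) al nu (fun ω => kN ω - z ω * al ω)
      (fun ω => nN ω - z ω * nu ω) z a s t := by
  obtain ⟨φ, hφ⟩ := hI.fp
  obtain ⟨χ, hχ⟩ := hz
  have mono : ∀ {n : ℕ} {K K' : ℝ}, K ≤ K' → K / (2 : ℝ) ^ n ≤ K' / 2 ^ n := by
    intro n K K' hKK
    exact div_le_div_of_nonneg_right hKK (by positivity)
  have d1 := dc_le hD
  refine ⟨hI.hi, ⟨fun u => ((φ u).1, ((φ u).2.1 - χ u * (φ u).1.1,
    (φ u).2.2 - χ u * (φ u).1.2), χ u), fun ω hω => ?_⟩, hI.fs,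
    fun ω hω => (hI.on1 ω hω).trans (mono d1),
    fun ω hω => ?_, hI.b1, fun ω hω => ?_, fun ω hω => (hI.b3 ω hω).trans d1,
    fun ω hω => (hI.ca ω hω).trans (mono d1), fun ω hω => (hzs ω hω).trans (mono (dc_one hD)),
    fun ω hω => ?_⟩
  · beta_reduce
    rw [← hφ ω hω, ← hχ ω hω]
  · have e1 : F.d ω iN - z ω * F.d ω iu - (kN ω - z ω * al ω) * F.d ω i0 -
        (nN ω - z ω * nu ω) = ((F.d ω iN - kN ω * F.d ω i0 - nN ω) -
          s ω * (F.d ω iu - al ω * F.d ω i0 - nu ω)) +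
          (s ω - z ω) * (F.d ω iu - al ω * F.d ω i0 - nu ω) := by ring
    rw [e1]
    refine (abs_add_le _ _).trans ?_
    rw [abs_mul]
    have g5 : |s ω - z ω| * |F.d ω iu - al ω * F.d ω i0 - nu ω| ≤ 1 / 2 ^ h * (D / 2 ^ V) :=
      mul_le_mul (hzs ω hω) (hI.on1 ω hω) (abs_nonneg _) (by positivity)
    have g6 : 1 / (2 : ℝ) ^ h * (D / 2 ^ V) = D / 2 ^ (V + h) := by
      rw [div_mul_div_comm, one_mul, ← pow_add, Nat.add_comm]
    have g8 : (D + D) / (2 : ℝ) ^ (V + h) ≤ Dc D / 2 ^ (V + h) :=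
      mono (by unfold Dc; nlinarith only [hD])
    have g9 : (D + D) / (2 : ℝ) ^ (V + h) = D / 2 ^ (V + h) + D / 2 ^ (V + h) := by ring
    linarith only [g5, g6, g8, g9, hI, hω, hI.on2 ω hω]
  · have e1 : kN ω - z ω * al ω + z ω * al ω = kN ω := by ring
    rw [e1]
    exact hI.b2 ω hω
  · have e1 : kN ω - z ω * al ω + z ω * al ω - s ω * al ω - t ω =
        kN ω - s ω * al ω - t ω := by ring
    rw [e1]
    exact (hI.cl ω hω).trans (mono d1)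

/-- Exchange of the coordinates. -/
theorem CPl.swap {al nu kk bb s' a s t : F.Ω → ℝ}
    (hC : CPl F A i0 iu iN v V h D al nu kk bb s' a s t)
    (hD : 1 ≤ D) (hs1 : ∀ ω, A ω → 1 ≤ |s' ω|) (hh : 1 ≤ h)
    (hcs : ∀ ω, A ω → |s ω - s' ω| ≤ 1 / 2 ^ h) :
    CPl F A i0 iN iu v V h (Dc D) (fun ω => kk ω + s' ω * al ω)
      (fun ω => bb ω + s' ω * nu ω) (fun ω => -kk ω / s' ω) (fun ω => -bb ω / s' ω)
      (fun ω => 1 / s' ω) (fun ω => t ω + s ω * a ω) (fun ω => 1 / s ω)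
      (fun ω => -t ω / s ω) := by
  obtain ⟨φ, hφ⟩ := hC.fp
  obtain ⟨ψ, hψ⟩ := hC.fs
  have mono : ∀ {n m : ℕ} {K K' : ℝ}, 0 ≤ K → K ≤ K' → n ≤ m →
      K / (2 : ℝ) ^ m ≤ K' / 2 ^ n := by
    intro n m K K' hK hKK hnm
    exact (div_le_div_of_nonneg_left hK (by positivity)
      (pow_le_pow_right₀ (by norm_num) hnm)).trans
      (div_le_div_of_nonneg_right hKK (by positivity))
  have d1 := dc_le hD
  have hs' : ∀ ω, A ω → s' ω ≠ 0 := by
    intro ω hω e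
    have := hs1 ω hω
    rw [e, abs_zero] at this
    linarith only [this]
  have hhalf : ∀ ω, A ω → 1 / 2 ≤ |s ω| := by
    intro ω hω
    have g1 : (1 : ℝ) / 2 ^ h ≤ 1 / 2 ^ 1 := mono zero_le_one le_rfl hh
    have g2 := abs_sub_abs_le_abs_sub (s' ω) (s ω)
    rw [abs_sub_comm] at g2
    have g3 := hcs ω hω
    have g4 := hs1 ω hω
    rw [pow_one] at g1
    linarith only [g1, g2, g3, g4]
  have hs0 : ∀ ω, A ω → s ω ≠ 0 := by
    intro ω hω e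
    have := hhalf ω hω
    rw [e, abs_zero] at this
    linarith only [this]
  have inv2 : ∀ ω, A ω → |1 / s ω| ≤ 2 := by
    intro ω hω
    rw [abs_div, abs_one, div_le_iff₀ (by have := hhalf ω hω; linarith only [this])]
    linarith only [hhalf, hω, hhalf ω hω]
  have inv1 : ∀ ω, A ω → |1 / s' ω| ≤ 1 := by
    intro ω hω
    rw [abs_div, abs_one, div_le_iff₀ (by have := hs1 ω hω; linarith only [this])]
    linarith only [hs1, hω, hs1 ω hω]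
  refine ⟨fun j => ?_, ⟨fun u => (((φ u).2.1.1 + (φ u).2.2 * (φ u).1.1,
    (φ u).2.1.2 + (φ u).2.2 * (φ u).1.2), (-(φ u).2.1.1 / (φ u).2.2, -(φ u).2.1.2 / (φ u).2.2),
    1 / (φ u).2.2), fun ω hω => ?_⟩, ⟨fun u => ((ψ u).2.2 + (ψ u).2.1 * (ψ u).1,
    1 / (ψ u).2.1, -(ψ u).2.2 / (ψ u).2.1), fun ω hω => ?_⟩, fun ω hω => ?_, fun ω hω => ?_,
    hC.b2, fun ω hω => ?_, fun ω hω => (inv2 ω hω).trans (by unfold Dc; nlinarith only [hD]),
    fun ω hω => ?_, fun ω hω => ?_, fun ω hω => ?_⟩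
  · rcases hC.hi j with h | h | h
    · exact Or.inl h
    · exact Or.inr (Or.inr h)
    · exact Or.inr (Or.inl h)
  · beta_reduce
    rw [← hφ ω hω]
  · beta_reduce
    rw [← hψ ω hω]
  · have e1 : F.d ω iN - (kk ω + s' ω * al ω) * F.d ω i0 - (bb ω + s' ω * nu ω) =
        (F.d ω iN - s' ω * F.d ω iu - kk ω * F.d ω i0 - bb ω) +
          s' ω * (F.d ω iu - al ω * F.d ω i0 - nu ω) := by ring
    rw [e1]
    refine (abs_add_le _ _).trans ?_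
    rw [abs_mul]
    have g0 : |s' ω| ≤ D + 1 := by
      have g1 : (1 : ℝ) / 2 ^ h ≤ 1 / 2 ^ 0 := mono zero_le_one le_rfl (Nat.zero_le _)
      have g2 := abs_sub_abs_le_abs_sub (s' ω) (s ω)
      rw [abs_sub_comm] at g2
      have g3 := hcs ω hω
      have g4 := hC.b3 ω hω
      rw [pow_zero, div_one] at g1
      linarith only [g1, g2, g3, g4]
    have g5 : |s' ω| * |F.d ω iu - al ω * F.d ω i0 - nu ω| ≤ (D + 1) * (D / 2 ^ V) :=
      mul_le_mul g0 (hC.on1 ω hω) (abs_nonneg _) (by linarith only [hD])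
    have g7 : D / (2 : ℝ) ^ (V + h) ≤ D / 2 ^ V := mono (by linarith only [hD]) le_rfl (by omega)
    have g8 : (D + (D + 1) * D) / (2 : ℝ) ^ V ≤ Dc D / 2 ^ V :=
      mono (by nlinarith only [hD]) (by unfold Dc; nlinarith only) le_rfl
    have g9 : (D + (D + 1) * D) / (2 : ℝ) ^ V = D / 2 ^ V + (D + 1) * (D / 2 ^ V) := by ring
    linarith only [g5, g7, g8, g9, hC, hω, hC.on2 ω hω]
  · have e1 : F.d ω iu - 1 / s' ω * F.d ω iN - -kk ω / s' ω * F.d ω i0 - -bb ω / s' ω =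
        -((1 / s' ω) * (F.d ω iN - s' ω * F.d ω iu - kk ω * F.d ω i0 - bb ω)) := by
      have := hs' ω hω
      field_simp
      ring
    rw [e1, abs_neg, abs_mul]
    have g1 : |1 / s' ω| * |F.d ω iN - s' ω * F.d ω iu - kk ω * F.d ω i0 - bb ω| ≤
        1 * (D / 2 ^ (V + h)) := mul_le_mul (inv1 ω hω) (hC.on2 ω hω) (abs_nonneg _) zero_le_one
    refine g1.trans ?_
    rw [one_mul]
    exact mono (by linarith only [hD]) d1 le_rfl
  · have e1 : -kk ω / s' ω + 1 / s' ω * (kk ω + s' ω * al ω) = al ω := by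
      have := hs' ω hω
      field_simp
      ring
    rw [e1]
    exact hC.b1 ω hω
  · have e1 : kk ω + s' ω * al ω - (t ω + s ω * a ω) =
        (kk ω + s' ω * al ω - s ω * al ω - t ω) + s ω * (al ω - a ω) := by ring
    rw [e1]
    refine (abs_add_le _ _).trans ?_
    rw [abs_mul]
    have g5 : |s ω| * |al ω - a ω| ≤ D * (D / 2 ^ V) :=
      mul_le_mul (hC.b3 ω hω) (hC.ca ω hω) (abs_nonneg _) (by linarith)
    have g7 : D / (2 : ℝ) ^ (V + h) ≤ D / 2 ^ V := mono (by linarith) le_rfl (by omega)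
    have g8 : (D + D * D) / (2 : ℝ) ^ V ≤ Dc D / 2 ^ V :=
      mono (by nlinarith only [hD]) (by unfold Dc; nlinarith only [hD]) le_rfl
    have g9 : (D + D * D) / (2 : ℝ) ^ V = D / 2 ^ V + D * (D / 2 ^ V) := by ring
    linarith only [g5, g7, g8, g9, hC, hω, hC.cl ω hω]
  · have e1 : 1 / s ω - 1 / s' ω = -((1 / s ω) * ((1 / s' ω) * (s ω - s' ω))) := by
      have h1 := hs' ω hω
      have h2 := hs0 ω hω
      field_simp
      ring
    rw [e1, abs_neg, abs_mul, abs_mul]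
    have g1 : |1 / s' ω| * |s ω - s' ω| ≤ 1 * (1 / 2 ^ h) :=
      mul_le_mul (inv1 ω hω) (hcs ω hω) (abs_nonneg _) zero_le_one
    have g2 : |1 / s ω| * (|1 / s' ω| * |s ω - s' ω|) ≤ 2 * (1 * (1 / 2 ^ h)) :=
      mul_le_mul (inv2 ω hω) g1 (by positivity) (by norm_num)
    have g3 : 2 * (1 * (1 / (2 : ℝ) ^ h)) = 2 / 2 ^ h := by ring
    have g4 : 2 / (2 : ℝ) ^ h ≤ Dc D / 2 ^ h :=
      mono (by norm_num) (by unfold Dc; nlinarith only [hD]) le_rfl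
    linarith only [g2, g3, g4]
  · have e1 : -kk ω / s' ω + 1 / s' ω * (kk ω + s' ω * al ω) -
        1 / s ω * (kk ω + s' ω * al ω) - -t ω / s ω =
        -((1 / s ω) * (kk ω + s' ω * al ω - s ω * al ω - t ω)) := by
      have h1 := hs' ω hω
      have h2 := hs0 ω hω
      field_simp
      ring
    rw [e1, abs_neg, abs_mul]
    have g1 : |1 / s ω| * |kk ω + s' ω * al ω - s ω * al ω - t ω| ≤ 2 * (D / 2 ^ (V + h)) :=
      mul_le_mul (inv2 ω hω) (hC.cl ω hω) (abs_nonneg _) (by norm_num)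
    refine g1.trans ?_
    have g3 : 2 * (D / (2 : ℝ) ^ (V + h)) = (2 * D) / 2 ^ (V + h) := by ring
    rw [g3]
    exact mono (by linarith only [hD]) (by unfold Dc; nlinarith only [hD]) le_rfl

/-- The cost of the collision lemma. -/
noncomputable def Kd (D : ℝ) : ℝ := Kc (Dc (Dc D)) + Real.log 2

/-- **Collision lemma.** If no large part of the event has visible closed planks of the thickness
`v + V + h`, the slopes of the closed planes of two lines through an exact point, or through points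
with a common value of a function of the point, do not agree to the precision `h`. -/
theorem col_one {al nu kN nN a s t : F.Ω → ℝ}
    (hI : IPl F A i0 iu iN v V h D al nu kN nN a s t)
    (hl : IsLaw (Pool.Agent.H49.Ent.cond F.p A True)) (hD : 1 ≤ D) (h5 : V + h ≤ J)
    (h6 : v + V ≤ J) (hd : 2 * Dc (Dc D) ≤ 2 ^ d) (hdy : d ≤ h) {P2 : ℕ}
    (hP : P2 + d ≤ v + (V + h)) (hPJ : P2 ≤ J) {T : Type} {b : F.Ω → T}
    (hb : ∃ β : (Fin 3 → ℤ) × (ℕ × F.ζ) → T, ∀ ω, A ω → b ω = β (ptq F J ω)) {κ : ℝ}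
    (hB : ∀ B : F.Ω → Prop, Sub B A → Real.exp (-(κ + Kd D)) * Pe F.p A ≤ Pe F.p B →
      ¬ ∃ ju jN : Fin 3, (∀ j : Fin 3, j = i0 ∨ j = ju ∨ j = jN) ∧
        LABq F J i0 ju jN v 0 P2 2 B) :
    Pe (cpy (Pool.Agent.H49.Ent.cond F.p A True) b)
      (fun x => |s x.1 - s x.2| ≤ 1 / 2 ^ h) ≤ Real.exp (-κ) := by
  classical
  have hp := F.isLaw
  have hA := pos_of_cond hp hl
  by_contra hcon
  push Not at hcon
  obtain ⟨ζ₀, hζ₀⟩ := exists_fn_of_cpy hl s b (fun x y' : ℝ => |x - y'| ≤ 1 / 2 ^ h)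
    hcon.le
  rw [Pe_cond, le_div_iff₀ hA] at hζ₀
  obtain ⟨A', hA'⟩ : ∃ A' : F.Ω → Prop, A' = fun ω => A ω ∧ |s ω - ζ₀ (b ω)| ≤
    1 / 2 ^ h := ⟨_, rfl⟩
  have hAA : Sub A' A := by rw [hA']; exact fun ω hω => hω.1
  have hPA : Real.exp (-κ) * Pe F.p A ≤ Pe F.p A' := by rw [hA']; exact hζ₀
  have hA'0 : 0 < Pe F.p A' := lt_of_lt_of_le (mul_pos (Real.exp_pos _) hA) hPA
  have hz : ∀ ω, A' ω → |s ω - ζ₀ (b ω)| ≤ 1 / 2 ^ h := by
    rw [hA']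
    exact fun ω hω => hω.2
  obtain ⟨β, hβ⟩ := hb
  have hC1 := (hI.sub hAA).chg hD (z := fun ω => ζ₀ (b ω))
    ⟨fun u => ζ₀ (β u), fun ω hω => by
      show ζ₀ (b ω) = ζ₀ (β (ptq F J ω))
      rw [hβ ω (hAA ω hω)]⟩ hz
  have hDc := dc_one hD
  have hDc2 := dc_one hDc
  have dd : Dc D ≤ Dc (Dc D) := dc_le hDc
  -- the popular case
  obtain ⟨i, hi, hPi⟩ := pick_part hp (Finset.univ : Finset Bool) (n := 2) (by simp) A'
    (fun i ω => if i then |ζ₀ (b ω)| ≤ 1 else 1 ≤ |ζ₀ (b ω)|) (fun ω _ => by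
      rcases le_total |ζ₀ (b ω)| 1 with h | h
      · exact ⟨true, Finset.mem_univ _, by simpa using h⟩
      · exact ⟨false, Finset.mem_univ _, by simpa using h⟩) hA'0
  obtain ⟨A₂, hA₂⟩ : ∃ A₂ : F.Ω → Prop, A₂ = fun ω => A' ω ∧
    (if i then |ζ₀ (b ω)| ≤ 1 else 1 ≤ |ζ₀ (b ω)|) := ⟨_, rfl⟩
  rw [← hA₂] at hPi
  have hS2 : Sub A₂ A' := by rw [hA₂]; exact fun ω hω => hω.1
  have hA20 : 0 < Pe F.p A₂ := by linarith only [hA'0, hPi]
  have hC2 := hC1.sub hS2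
  have fin : ∀ (ju jN : Fin 3) (al' nu' kk' bb' s'' a' s₁ t₁ : F.Ω → ℝ),
      CPl F A₂ i0 ju jN v V h (Dc (Dc D)) al' nu' kk' bb' s'' a' s₁ t₁ →
      (∀ ω, A₂ ω → |s'' ω| ≤ 1) → False := by
    intro ju jN al' nu' kk' bb' s'' a' s₁ t₁ hC hs
    obtain ⟨B, hB1, hB2, hB3⟩ := col_core hC hA20 h5 h6 hs hDc2 hd hdy hP hPJ
    refine hB B (fun ω hω => hAA ω (hS2 ω (hB1 ω hω))) ?_ ⟨ju, jN, hC.hi, hB3⟩
    refine le_trans ?_ hB2
    have e1 : Real.exp (-(κ + Kd D)) = Real.exp (-Kc (Dc (Dc D))) * (Real.exp (-κ) / 2) := by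
      unfold Kd
      have e2 : -(κ + (Kc (Dc (Dc D)) + Real.log 2)) =
        -Kc (Dc (Dc D)) + (-κ + -Real.log 2) := by ring
      rw [e2, Real.exp_add, Real.exp_add (-κ), Real.exp_neg (Real.log 2),
        Real.exp_log (by norm_num)]
      rfl
    rw [e1, mul_assoc]
    refine mul_le_mul_of_nonneg_left ?_ (Real.exp_pos _).le
    have e3 : Real.exp (-κ) / 2 * Pe F.p A = (Real.exp (-κ) * Pe F.p A) / 2 := by ring
    rw [e3]
    linarith only [hPA, hPi]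
  cases i with
  | true =>
    refine fin iu iN al nu (fun ω => kN ω - ζ₀ (b ω) * al ω)
      (fun ω => nN ω - ζ₀ (b ω) * nu ω) (fun ω => ζ₀ (b ω)) a s t ?_ (fun ω hω => ?_)
    · obtain ⟨c1, c2, c3, c4, c5, c6, c7, c8, c9, c10, c11⟩ := hC2
      have m : ∀ n : ℕ, Dc D / (2 : ℝ) ^ n ≤ Dc (Dc D) / 2 ^ n := fun n =>
        div_le_div_of_nonneg_right dd (by positivity)
      exact ⟨c1, c2, c3, fun ω hω => (c4 ω hω).trans (m _), fun ω hω => (c5 ω hω).trans (m _),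
        c6, c7, fun ω hω => (c8 ω hω).trans dd, fun ω hω => (c9 ω hω).trans (m _),
        fun ω hω => (c10 ω hω).trans (m _), fun ω hω => (c11 ω hω).trans (m _)⟩
    · rw [hA₂] at hω
      simpa using hω.2
  | false =>
    have g1 : ∀ ω, A₂ ω → 1 ≤ |ζ₀ (b ω)| := by
      intro ω hω
      rw [hA₂] at hω
      simpa using hω.2
    have hHy : 1 ≤ h := by
      by_contra hc
      have hd0 : d = 0 := by omega
      rw [hd0] at hd
      norm_num at hd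
      linarith only [hDc2, hd]
    have hC3 := hC2.swap hDc g1 hHy (fun ω hω => hz ω (hS2 ω hω))
    refine fin iN iu _ _ _ _ _ _ _ _ hC3 (fun ω hω => ?_)
    rw [abs_div, abs_one, div_le_iff₀ (by have := g1 ω hω; linarith only [this])]
    linarith only [g1, hω, g1 ω hω]

end Main

/-! ### Classes -/

open Pool.S6C

/-- **Collision lemma, class form.** `G` is the thickness of the planks of the windows `w`. -/
theorem col_cls {S : PCl 3} {i0 : Fin 3} {w : ℚ} {G : ℝ}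
    (hG : PNum S (capS 1 (qTh i0 1 w)) G) {x : ℝ} (hx : 0 < x) (hGx : G + x ≤ 1) {D : ℝ}
    (hD : 1 ≤ D) : ∃ c > 0, ∃ J₁ : ℕ, ∀ J ≥ J₁, ∀ (F : Fam 3 J) (A : F.Ω → Prop),
      S.St c J F A → ∀ B : F.Ω → Prop, Sub B A → Real.exp (-(c * J)) * Pe F.p A ≤ Pe F.p B →
      IsLaw (Pool.Agent.H49.Ent.cond F.p B True) → ∀ (iu iN : Fin 3) (V h : ℕ)
      (al nu kN nN a s t : F.Ω → ℝ),
      IPl F B i0 iu iN ⌊(w : ℝ) * J⌋₊ V h D al nu kN nN a s t → V + h ≤ J →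
      ⌊(w : ℝ) * J⌋₊ + V ≤ J → x * J ≤ h → (G + x) * J ≤ (⌊(w : ℝ) * J⌋₊ + V + h : ℕ) →
      ∀ (T : Type) (b : F.Ω → T),
      (∃ β : (Fin 3 → ℤ) × (ℕ × F.ζ) → T, ∀ ω, B ω → b ω = β (ptq F J ω)) →
      Pe (cpy (Pool.Agent.H49.Ent.cond F.p B True) b)
        (fun x => |s x.1 - s x.2| ≤ 1 / 2 ^ h) ≤ Real.exp (-(c * J)) := by
  obtain ⟨c, hc, J₁, hn⟩ := num_no (qTh_hered i0 1 w) hG (half_pos hx)
  obtain ⟨d, hd⟩ := pow_unbounded_of_one_lt (2 * Dc (Dc D)) (by norm_num : (1 : ℝ) < 2)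
  obtain ⟨J₂, hJ₂⟩ := exists_nat_gt (Kd D / (c / 4))
  obtain ⟨J₃, hJ₃⟩ := exists_nat_gt (2 * d / x)
  refine ⟨c / 4, by positivity, max J₁ (max J₂ J₃), fun J hJ F A hS B hBA hPB hl iu iN V h al nu
    kN nN a s t hI h1 h2 h3 h4 T b hb => ?_⟩
  have hJ1 : J₁ ≤ J := (le_max_left _ _).trans hJ
  have hJ2 : (J₂ : ℝ) ≤ J := by
    exact_mod_cast (le_max_left J₂ J₃).trans ((le_max_right _ _).trans hJ)
  have hJ3 : (J₃ : ℝ) ≤ J := by
    exact_mod_cast (le_max_right J₂ J₃).trans ((le_max_right _ _).trans hJ)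
  have hKC : Kd D ≤ c / 4 * J := by
    have := hJ₂.trans_le hJ2
    rw [div_lt_iff₀ (by positivity)] at this
    linarith only [this]
  have hdx : 2 * (d : ℝ) ≤ x * J := by
    have := hJ₃.trans_le hJ3
    rw [div_lt_iff₀ hx] at this
    linarith only [this]
  have hJ0 : (0 : ℝ) ≤ J := Nat.cast_nonneg J
  have hd0 : (0 : ℝ) ≤ d := Nat.cast_nonneg d
  have hfl : ⌊((1 : ℝ)) * J⌋₊ = J := by rw [one_mul, Nat.floor_natCast]
  have hG0 : 0 ≤ G + x / 2 ∨ G + x / 2 < 0 := le_or_gt _ _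
  have hP2 : ((⌊(G + x / 2) * J⌋₊ : ℕ) : ℝ) + d ≤ (⌊(w : ℝ) * J⌋₊ + V + h : ℕ) := by
    rcases hG0 with hg | hg
    · have := Nat.floor_le (mul_nonneg hg hJ0)
      nlinarith only [h4, hdx, this]
    · have : ⌊(G + x / 2) * J⌋₊ = 0 := Nat.floor_of_nonpos (by nlinarith only [hg])
      rw [this]
      push_cast
      have g1 : (0 : ℝ) ≤ ⌊(w : ℝ) * J⌋₊ := Nat.cast_nonneg _
      have g2 : (0 : ℝ) ≤ V := Nat.cast_nonneg _
      linarith only [h3, hdx]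
  have hP3 : ⌊(G + x / 2) * J⌋₊ ≤ J := by
    refine Nat.floor_le_of_le ?_
    nlinarith only [hdx, hGx]
  refine col_one hI hl hD h1 h2 hd.le ?_ (P2 := ⌊(G + x / 2) * J⌋₊) ?_ hP3 hb ?_
  · have : (d : ℝ) ≤ h := by linarith only [h3, hdx]
    exact_mod_cast this
  · have h5 : ((⌊(G + x / 2) * J⌋₊ + d : ℕ) : ℝ) ≤ (⌊(w : ℝ) * J⌋₊ + V + h : ℕ) := by
      push_cast at hP2 ⊢
      exact hP2
    have h6 : ⌊(G + x / 2) * J⌋₊ + d ≤ ⌊(w : ℝ) * J⌋₊ + V + h := by exact_mod_cast h5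
    omega
  · rintro B' hB' hPB' ⟨ju, jN, hj, hL⟩
    refine hn J hJ1 F A (S.mono (by linarith only [hc]) hS) B' (fun ω hω => hBA ω (hB' ω hω)) ?_
      (Or.inr ⟨by linarith only [hx, hGx], ju, jN, hj, ?_⟩)
    · refine le_trans ?_ hPB'
      refine le_trans ?_ (mul_le_mul_of_nonneg_left hPB (Real.exp_pos _).le)
      rw [← mul_assoc, ← Real.exp_add]
      refine mul_le_mul_of_nonneg_right (Real.exp_le_exp.2 ?_) (Pe_nonneg F.isLaw A)
      nlinarith only [hKC, hc]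
    · rw [hfl]
      exact hL

end Pool.HP
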