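import Pool.Agent.H28.HP.Col
import Pool.Agent.H41.S6H.Rc

/-!
# The collision lemma: closed planes of a class, labels which are almost visible
-/

set_option autoImplicit false

namespace Pool.HP

open Finset Real
open Pool.Agent.H49.Ent Pool.Agent.H32.Dense Pool.STK Pool.KA Pool.KSAT Pool.K3 Pool.K2S Pool.PB
  Pool.KS6 Pool.S6N Pool.S6C

section Adapt

variable {J : ℕ} {F : Fam 3 J} {A : F.Ω → Prop} {i0 iu iN : Fin 3} {v V h : ℕ} {D : ℝ}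

theorem IPl.anti {al nu kN nN a s t : F.Ω → ℝ} (hI : IPl F A i0 iu iN v V h D al nu kN nN a s t)
    (hD : 0 ≤ D) {V' h' : ℕ} (h1 : V' ≤ V) (h2 : V' + h' ≤ V + h) :
    IPl F A i0 iu iN v V' h' D al nu kN nN a s t := by
  have m1 : D / 2 ^ V ≤ D / 2 ^ V' :=
    div_le_div_of_nonneg_left hD (by positivity) (pow_le_pow_right₀ (by norm_num) h1)
  have m2 : D / 2 ^ (V + h) ≤ D / 2 ^ (V' + h') :=
    div_le_div_of_nonneg_left hD (by positivity) (pow_le_pow_right₀ (by norm_num) h2)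
  exact ⟨hI.hi, hI.fp, hI.fs, fun ω hω => (hI.on1 ω hω).trans m1,
    fun ω hω => (hI.on2 ω hω).trans m2, hI.b1, hI.b2, hI.b3, fun ω hω => (hI.ca ω hω).trans m1,
    fun ω hω => (hI.cl ω hω).trans m2⟩

/-- **From helper41's closed planes.** -/
theorem _root_.Pool.S6C.RcF.ipl {He w r : ℕ} {Bs Bc C : ℝ}
    {e n : (Fin 3 → ℤ) × (ℕ × F.ζ) → Fin 3 → ℝ} {sy : (Fin 3 → ℤ) × (ℕ × F.ζ) → ℝ}
    {s c : F.Ω → ℝ} (hR : RcF F A i0 iu iN He w r Bs Bc C e n sy s c)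
    (hi : ∀ j : Fin 3, j = i0 ∨ j = iu ∨ j = iN) (hwv : w ≤ v) (hvJ : v ≤ J) (hV : V ≤ He)
    (hh : V + h ≤ r) (hC : 0 ≤ C) (hC2 : 2 * C ≤ D) (hBs : Bs ≤ D) {a : F.Ω → ℝ}
    (ha : ∃ ψ : ((Fin 3 → ℝ) × (Fin 3 → ℝ)) × F.ζ × ℕ → ℝ, ∀ ω, A ω → a ω = ψ (slam F v ω))
    (hae : ∀ ω, A ω → |e (Fam.pt F ω) iu - a ω| ≤ D / 2 ^ V) :
    IPl F A i0 iu iN v V h D (fun ω => e (Fam.pt F ω) iu) (fun ω => n (Fam.pt F ω) iu)
      (fun ω => e (Fam.pt F ω) iN) (fun ω => n (Fam.pt F ω) iN) a (fun ω => -s ω)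
      (fun ω => -c ω) := by
  obtain ⟨ψ, hψ⟩ := hR.slm
  obtain ⟨ψa, hψa⟩ := ha
  have m1 : C / 2 ^ He ≤ D / 2 ^ V :=
    (div_le_div_of_nonneg_left hC (by positivity) (pow_le_pow_right₀ (by norm_num) hV)).trans
      (div_le_div_of_nonneg_right (by linarith only [hC, hC2]) (by positivity))
  have m2 : ∀ K : ℝ, 0 ≤ K → K ≤ D → K / 2 ^ r ≤ D / 2 ^ (V + h) := fun K h0 hK =>
    (div_le_div_of_nonneg_left h0 (by positivity) (pow_le_pow_right₀ (by norm_num) hh)).trans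
      (div_le_div_of_nonneg_right hK (by positivity))
  refine ⟨hi, ⟨fun u => ((e u iu, n u iu), e u iN, n u iN), fun ω _ => rfl⟩,
    ⟨fun u => (ψa u, -(ψ (u.1, u.2.1, u.2.2 / 2 ^ (v - w))).1,
      -(ψ (u.1, u.2.1, u.2.2 / 2 ^ (v - w))).2), fun ω hω => ?_⟩,
    fun ω hω => (hR.on ω hω iu).trans m1, fun ω hω => ?_,
    fun ω hω => (hR.be ω hω iu).trans (by norm_num),
    fun ω hω => (hR.be ω hω iN).trans (by norm_num), fun ω hω => ?_, hae, fun ω hω => ?_⟩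
  · have e1 := hψ ω
    rw [slam_coarse F hwv hvJ ω] at e1
    beta_reduce
    rw [← e1, ← hψa ω hω]
  · have e1 : F.d ω iN - e (Fam.pt F ω) iN * F.d ω i0 - n (Fam.pt F ω) iN -
        -s ω * (F.d ω iu - e (Fam.pt F ω) iu * F.d ω i0 - n (Fam.pt F ω) iu) =
        (fn i0 iu iN (c ω) (s ω) (F.d ω) - fn i0 iu iN (c ω) (s ω) (n (Fam.pt F ω))) -
          fn i0 iu iN (c ω) (s ω) (e (Fam.pt F ω)) * F.d ω i0 := by
      unfold fn
      rw [hR.e0, hR.n0]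
      ring
    beta_reduce
    rw [e1]
    refine (abs_sub _ _).trans ?_
    rw [abs_mul]
    have g1 : |fn i0 iu iN (c ω) (s ω) (e (Fam.pt F ω))| * |F.d ω i0| ≤ C / 2 ^ r * 1 :=
      mul_le_mul (hR.dir ω hω) (F.dir ω i0) (abs_nonneg _) (by positivity)
    have g2 := m2 (2 * C) (by linarith only [hC]) hC2
    have g3 : 2 * C / (2 : ℝ) ^ r = C / 2 ^ r + C / 2 ^ r * 1 := by ring
    linarith only [g1, g2, g3, hR, hω, hR.vel ω hω]
  · show |-s ω| ≤ D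
    rw [abs_neg]
    exact (hR.bs ω hω).trans hBs
  · have e1 : e (Fam.pt F ω) iN - -s ω * e (Fam.pt F ω) iu - -c ω =
        fn i0 iu iN (c ω) (s ω) (e (Fam.pt F ω)) := by
      unfold fn
      rw [hR.e0]
      ring
    rw [e1]
    exact (hR.dir ω hω).trans (m2 C hC (by linarith only [hC, hC2]))

/-- The conditional law does not see null samples. -/
theorem cond_supp {Ω : Type} [Fintype Ω] {p : Ω → ℝ} (hp : IsLaw p) (A : Ω → Prop) :
    Pool.Agent.H49.Ent.cond p (fun ω => A ω ∧ 0 < p ω) True =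
      Pool.Agent.H49.Ent.cond p A True := by
  classical
  have h1 : Pe p (fun ω => A ω ∧ 0 < p ω) = Pe p A := by
    rw [Pe_eq, Pe_eq]
    refine Finset.sum_congr rfl fun ω _ => ?_
    by_cases hA : A ω
    · by_cases h0 : 0 < p ω
      · rw [if_pos ⟨hA, h0⟩, if_pos hA]
      · rw [if_neg (fun h => h0 h.2), if_pos hA]
        exact le_antisymm (hp.nonneg ω) (not_lt.1 h0)
    · rw [if_neg (fun h => hA h.1), if_neg hA]
  funext ω
  have h2 : ∀ C : Ω → Prop, Pool.Agent.H49.Ent.cond p C True ω =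
      (if C ω then p ω else 0) / Pe p C := by
    intro C
    unfold Pool.Agent.H49.Ent.cond
    by_cases hC : C ω
    · simp [hC, Pe]
    · simp [hC]
  rw [h2, h2, h1]
  by_cases hA : A ω
  · by_cases h0 : 0 < p ω
    · rw [if_pos ⟨hA, h0⟩, if_pos hA]
    · rw [if_neg (fun h => h0 h.2), if_pos hA, le_antisymm (not_lt.1 h0) (hp.nonneg ω)]
  · rw [if_neg (fun h => hA h.1), if_neg hA]

/-- The event of the collision lemma: the slope is near a function `z` of the exact point. -/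
theorem col_evt {d : ℕ} {al nu kN nN a s t z : F.Ω → ℝ}
    (hI : IPl F A i0 iu iN v V h D al nu kN nN a s t)
    (hA : 0 < Pe F.p A) (hD : 1 ≤ D) (h5 : V + h ≤ J)
    (h6 : v + V ≤ J) (hd : 2 * Dc (Dc D) ≤ 2 ^ d) (hdy : d ≤ h) {P2 : ℕ}
    (hP : P2 + d ≤ v + (V + h)) (hPJ : P2 ≤ J)
    (hz : ∃ χ : (Fin 3 → ℤ) × (ℕ × F.ζ) → ℝ, ∀ ω, A ω → z ω = χ (ptq F J ω))
    (hzs : ∀ ω, A ω → |s ω - z ω| ≤ 1 / 2 ^ h) :
    ∃ B : F.Ω → Prop, Sub B A ∧ Real.exp (-Kd D) * Pe F.p A ≤ Pe F.p B ∧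
      ∃ ju jN : Fin 3, (∀ j : Fin 3, j = i0 ∨ j = ju ∨ j = jN) ∧
        LABq F J i0 ju jN v 0 P2 2 B := by
  classical
  have hp := F.isLaw
  have hC1 := hI.chg hD hz hzs
  have hDc := dc_one hD
  have hDc2 := dc_one hDc
  have dd : Dc D ≤ Dc (Dc D) := dc_le hDc
  -- the popular case
  obtain ⟨i, hi, hPi⟩ := pick_part hp (Finset.univ : Finset Bool) (n := 2) (by simp) A
    (fun i ω => if i then |z ω| ≤ 1 else 1 ≤ |z ω|) (fun ω _ => by
      rcases le_total |z ω| 1 with h | h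
      · exact ⟨true, Finset.mem_univ _, by simpa using h⟩
      · exact ⟨false, Finset.mem_univ _, by simpa using h⟩) hA
  obtain ⟨A₂, hA₂⟩ : ∃ A₂ : F.Ω → Prop, A₂ = fun ω => A ω ∧
    (if i then |z ω| ≤ 1 else 1 ≤ |z ω|) := ⟨_, rfl⟩
  rw [← hA₂] at hPi
  have hS2 : Sub A₂ A := by rw [hA₂]; exact fun ω hω => hω.1
  have hA20 : 0 < Pe F.p A₂ := by linarith only [hA, hPi]
  have hC2 := hC1.sub hS2
  have fin : ∀ (ju jN : Fin 3) (al' nu' kk' bb' s'' a' s₁ t₁ : F.Ω → ℝ),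
      CPl F A₂ i0 ju jN v V h (Dc (Dc D)) al' nu' kk' bb' s'' a' s₁ t₁ →
      (∀ ω, A₂ ω → |s'' ω| ≤ 1) → ∃ B : F.Ω → Prop, Sub B A ∧
      Real.exp (-Kd D) * Pe F.p A ≤ Pe F.p B ∧
      ∃ ju jN : Fin 3, (∀ j : Fin 3, j = i0 ∨ j = ju ∨ j = jN) ∧
        LABq F J i0 ju jN v 0 P2 2 B := by
    intro ju jN al' nu' kk' bb' s'' a' s₁ t₁ hC hs
    obtain ⟨B, hB1, hB2, hB3⟩ := col_core hC hA20 h5 h6 hs hDc2 hd hdy hP hPJ
    refine ⟨B, fun ω hω => hS2 ω (hB1 ω hω), ?_, ju, jN, hC.hi, hB3⟩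
    refine le_trans ?_ hB2
    have e1 : Real.exp (-Kd D) = Real.exp (-Kc (Dc (Dc D))) / 2 := by
      unfold Kd
      rw [neg_add, Real.exp_add, Real.exp_neg (Real.log 2), Real.exp_log (by norm_num)]
      rfl
    rw [e1, div_mul_eq_mul_div, mul_div_assoc]
    refine mul_le_mul_of_nonneg_left ?_ (Real.exp_pos _).le
    linarith only [hPi]
  cases i with
  | true =>
    refine fin iu iN al nu (fun ω => kN ω - z ω * al ω)
      (fun ω => nN ω - z ω * nu ω) z a s t ?_ (fun ω hω => ?_)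
    · obtain ⟨c1, c2, c3, c4, c5, c6, c7, c8, c9, c10, c11⟩ := hC2
      have m : ∀ n : ℕ, Dc D / (2 : ℝ) ^ n ≤ Dc (Dc D) / 2 ^ n := fun n =>
        div_le_div_of_nonneg_right dd (by positivity)
      exact ⟨c1, c2, c3, fun ω hω => (c4 ω hω).trans (m _), fun ω hω => (c5 ω hω).trans (m _),
        c6, c7, fun ω hω => (c8 ω hω).trans dd, fun ω hω => (c9 ω hω).trans (m _),
        fun ω hω => (c10 ω hω).trans (m _), fun ω hω => (c11 ω hω).trans (m _)⟩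
    · rw [hA₂] at hω
      simpa using hω.2
  | false =>
    have g1 : ∀ ω, A₂ ω → 1 ≤ |z ω| := by
      intro ω hω
      rw [hA₂] at hω
      simpa using hω.2
    have hHy : 1 ≤ h := by
      by_contra hc
      have hd0 : d = 0 := by omega
      rw [hd0] at hd
      norm_num at hd
      linarith only [hDc2, hd]
    have hC3 := hC2.swap hDc g1 hHy (fun ω hω => hzs ω (hS2 ω hω))
    refine fin iN iu _ _ _ _ _ _ _ _ hC3 (fun ω hω => ?_)
    rw [abs_div, abs_one, div_le_iff₀ (by have := g1 ω hω; linarith only [this])]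
    linarith only [g1, hω, g1 ω hω]

/-- **Collision lemma for labels which are almost visible.** -/
theorem col_lab {d : ℕ} {al nu kN nN a s t : F.Ω → ℝ}
    (hI : IPl F A i0 iu iN v V h D al nu kN nN a s t)
    (hl : IsLaw (Pool.Agent.H49.Ent.cond F.p A True)) (hD : 1 ≤ D) (h5 : V + h ≤ J)
    (h6 : v + V ≤ J) (hd : 2 * Dc (Dc D) ≤ 2 ^ d) (hdy : d ≤ h) {P2 : ℕ}
    (hP : P2 + d ≤ v + (V + h)) (hPJ : P2 ≤ J) {T : Type} {b : F.Ω → T} {K₀ ε : ℝ} (hK : 0 < K₀)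
    (hb : CH (Pool.Agent.H49.Ent.cond F.p A True) b (ptq F J) ≤ K₀) (hε : 0 < ε)
    (hB : ∀ B : F.Ω → Prop, Sub B A →
      Real.exp (-(Kd D + 2 * K₀ / ε)) * (ε / 2) * Pe F.p A ≤ Pe F.p B →
      ¬ ∃ ju jN : Fin 3, (∀ j : Fin 3, j = i0 ∨ j = ju ∨ j = jN) ∧
        LABq F J i0 ju jN v 0 P2 2 B) :
    Pe (cpy (Pool.Agent.H49.Ent.cond F.p A True) b)
      (fun x => |s x.1 - s x.2| ≤ 1 / 2 ^ h) ≤ ε := by
  classical
  have hp := F.isLaw
  have hA := pos_of_cond hp hl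
  by_contra hcon
  push Not at hcon
  obtain ⟨ζ₀, hζ₀⟩ := exists_fn_of_cpy hl s b (fun x y' : ℝ => |x - y'| ≤ 1 / 2 ^ h)
    hcon.le
  obtain ⟨q, hq⟩ : ∃ q, q = Pool.Agent.H49.Ent.cond F.p A True := ⟨_, rfl⟩
  rw [← hq] at hl hb hζ₀
  obtain ⟨L, hL⟩ : ∃ L : ℝ, L = 2 * K₀ / ε := ⟨_, rfl⟩
  have hL0 : 0 < L := by rw [hL]; positivity
  have h1 := Pe_dens_le hl b (ptq F J) hL0 hb
  have h1' : K₀ / L = ε / 2 := by
    rw [hL]
    field_simp
  rw [h1'] at h1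
  obtain ⟨W, hW⟩ : ∃ W : F.Ω → ℝ, W = fun ω => if |s ω - ζ₀ (b ω)| ≤ 1 / 2 ^ h ∧
      ¬ law q (fun ω => (b ω, ptq F J ω)) (b ω, ptq F J ω) <
        Real.exp (-L) * law q (ptq F J) (ptq F J ω) then q ω else 0 := ⟨_, rfl⟩
  have hW0 : ∀ ω, 0 ≤ W ω := by
    intro ω
    rw [hW]
    beta_reduce
    split_ifs
    exacts [hl.nonneg ω, le_rfl]
  have hsum : ε / 2 ≤ ∑ ω, W ω := by
    have e1 : Pe q (fun ω => |s ω - ζ₀ (b ω)| ≤ 1 / 2 ^ h) ≤ (∑ ω, W ω) +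
        Pe q (fun ω => law q (fun ω => (b ω, ptq F J ω)) (b ω, ptq F J ω) <
          Real.exp (-L) * law q (ptq F J) (ptq F J ω)) := by
      rw [Pe_eq, Pe_eq, ← Finset.sum_add_distrib]
      refine Finset.sum_le_sum fun ω _ => ?_
      rw [hW]
      beta_reduce
      have := hl.nonneg ω
      by_cases c1 : |s ω - ζ₀ (b ω)| ≤ 1 / 2 ^ h
      · by_cases c2 : law q (fun ω => (b ω, ptq F J ω)) (b ω, ptq F J ω) <
          Real.exp (-L) * law q (ptq F J) (ptq F J ω)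
        · rw [if_pos c1, if_neg (fun h => h.2 c2), if_pos c2]
          linarith only
        · rw [if_pos c1, if_pos ⟨c1, c2⟩, if_neg c2]
          linarith only
      · rw [if_neg c1, if_neg (fun h => c1 h.1)]
        split_ifs
        · linarith only [this]
        · linarith only
    linarith only [hζ₀, h1, e1]
  have hne : Nonempty T := by
    by_contra hne
    have : IsEmpty F.Ω := ⟨fun ω => hne ⟨b ω⟩⟩
    have h2 := hl.sum_one
    rw [Finset.univ_eq_empty, Finset.sum_empty] at h2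
    norm_num at h2
  obtain ⟨ζ, hζ⟩ := exists_fn_of_dens hl hW0 b (ptq F J) (L := L) (fun ω hω => by
      rw [hW] at hω
      beta_reduce at hω
      split_ifs at hω with h2
      · exact not_lt.1 h2.2
      · exact absurd hω (lt_irrefl _)) (fun ω hω => by
      rw [hW] at hω
      beta_reduce at hω
      split_ifs at hω with h2
      · exact hω
      · exact absurd hω (lt_irrefl _))
  have hζ' : Real.exp (-L) * (ε / 2) ≤ Pe q (fun ω => |s ω - ζ₀ (b ω)| ≤ 1 / 2 ^ h ∧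
      b ω = ζ (ptq F J ω)) := by
    refine (mul_le_mul_of_nonneg_left hsum (Real.exp_pos _).le).trans (hζ.trans ?_)
    rw [Pe_eq, Pe_eq]
    refine Finset.sum_le_sum fun ω _ => ?_
    rw [hW]
    beta_reduce
    have := hl.nonneg ω
    by_cases c1 : b ω = ζ (ptq F J ω)
    · rw [if_pos c1]
      split_ifs with h2 h3 h3
      · exact le_rfl
      · exact absurd ⟨h2.1, c1⟩ h3
      · exact this
      · exact le_rfl
    · rw [if_neg c1]
      split_ifs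
      · exact this
      · exact le_rfl
  rw [hq, Pe_cond, le_div_iff₀ hA] at hζ'
  obtain ⟨A', hA'⟩ : ∃ A' : F.Ω → Prop, A' = fun ω => A ω ∧ |s ω - ζ₀ (b ω)| ≤ 1 / 2 ^ h ∧
      b ω = ζ (ptq F J ω) := ⟨_, rfl⟩
  rw [← hA'] at hζ'
  have hAA : Sub A' A := by rw [hA']; exact fun ω hω => hω.1
  have hA'0 : 0 < Pe F.p A' := by
    refine lt_of_lt_of_le ?_ hζ'
    have := Real.exp_pos (-L)
    positivity
  obtain ⟨B, hB1, hB2, hB3⟩ := col_evt (hI.sub hAA) hA'0 hD h5 h6 hd hdy hP hPJ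
    (z := fun ω => ζ₀ (b ω)) ⟨fun u => ζ₀ (ζ u), fun ω hω => by
      rw [hA'] at hω
      show ζ₀ (b ω) = ζ₀ (ζ (ptq F J ω))
      rw [hω.2.2]⟩ (fun ω hω => by
      rw [hA'] at hω
      exact hω.2.1)
  refine hB B (fun ω hω => hAA ω (hB1 ω hω)) ?_ hB3
  refine le_trans ?_ hB2
  rw [← hL, neg_add, Real.exp_add]
  have := mul_le_mul_of_nonneg_left hζ' (Real.exp_pos (-Kd D)).le
  calc _ = Real.exp (-Kd D) * (Real.exp (-L) * (ε / 2) * Pe F.p A) := by ring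
    _ ≤ _ := this

end Adapt

/-- **Collision lemma, class form, for labels which are almost visible.** -/
theorem col_lab_pe {S : PCl 3} {i0 : Fin 3} {w : ℚ} {G : ℝ}
    (hG : PNum S (capS 1 (qTh i0 1 w)) G) {x : ℝ} (hx : 0 < x) (hGx : G + x ≤ 1) {D K₀ ε : ℝ}
    (hD : 1 ≤ D) (hK : 0 < K₀) (hε : 0 < ε) : ∃ c > 0, ∃ J₁ : ℕ, ∀ J ≥ J₁, ∀ (F : Fam 3 J)
      (A : F.Ω → Prop), S.St c J F A → ∀ B : F.Ω → Prop, Sub B A →
      Real.exp (-(c * J)) * Pe F.p A ≤ Pe F.p B →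
      IsLaw (Pool.Agent.H49.Ent.cond F.p B True) → ∀ (iu iN : Fin 3) (V h : ℕ)
      (al nu kN nN a s t : F.Ω → ℝ),
      IPl F B i0 iu iN ⌊(w : ℝ) * J⌋₊ V h D al nu kN nN a s t → V + h ≤ J →
      ⌊(w : ℝ) * J⌋₊ + V ≤ J → x * J ≤ h → (G + x) * J ≤ (⌊(w : ℝ) * J⌋₊ + V + h : ℕ) →
      ∀ (T : Type) (b : F.Ω → T),
      CH (Pool.Agent.H49.Ent.cond F.p B True) b (ptq F J) ≤ K₀ →
      Pe (cpy (Pool.Agent.H49.Ent.cond F.p B True) b)
        (fun y => |s y.1 - s y.2| ≤ 1 / 2 ^ h) ≤ ε := by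
  obtain ⟨c, hc, J₁, hn⟩ := num_no (qTh_hered i0 1 w) hG (half_pos hx)
  obtain ⟨d, hd⟩ := pow_unbounded_of_one_lt (2 * Dc (Dc D)) (by norm_num : (1 : ℝ) < 2)
  obtain ⟨C, hC⟩ : ∃ C : ℝ, C = Kd D + 2 * K₀ / ε - Real.log (ε / 2) := ⟨_, rfl⟩
  obtain ⟨J₂, hJ₂⟩ := exists_nat_gt (C / (c / 4))
  obtain ⟨J₃, hJ₃⟩ := exists_nat_gt (2 * d / x)
  refine ⟨c / 4, by positivity, max J₁ (max J₂ J₃), fun J hJ F A hS B hBA hPB hl iu iN V h al nu
    kN nN a s t hI h1 h2 h3 h4 T b hb => ?_⟩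
  have hJ1 : J₁ ≤ J := (le_max_left _ _).trans hJ
  have hJ2 : (J₂ : ℝ) ≤ J := by
    exact_mod_cast (le_max_left J₂ J₃).trans ((le_max_right _ _).trans hJ)
  have hJ3 : (J₃ : ℝ) ≤ J := by
    exact_mod_cast (le_max_right J₂ J₃).trans ((le_max_right _ _).trans hJ)
  have hKC : C ≤ c / 4 * J := by
    have := hJ₂.trans_le hJ2
    rw [div_lt_iff₀ (by positivity)] at this
    linarith only [this]
  have hdx : 2 * (d : ℝ) ≤ x * J := by
    have := hJ₃.trans_le hJ3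
    rw [div_lt_iff₀ hx] at this
    linarith only [this]
  have hJ0 : (0 : ℝ) ≤ J := Nat.cast_nonneg J
  have hd0 : (0 : ℝ) ≤ d := Nat.cast_nonneg d
  have hfl : ⌊((1 : ℝ)) * J⌋₊ = J := by rw [one_mul, Nat.floor_natCast]
  have hG0 : 0 ≤ G + x / 2 ∨ G + x / 2 < 0 := le_or_gt _ _
  have hP2 : ((⌊(G + x / 2) * J⌋₊ : ℕ) : ℝ) + d ≤ (⌊(w : ℝ) * J⌋₊ + V + h : ℕ) := by
    rcases hG0 with hg | hg
    · have := Nat.floor_le (mul_nonneg hg hJ0)
      nlinarith only [h4, hdx, this]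
    · have : ⌊(G + x / 2) * J⌋₊ = 0 := Nat.floor_of_nonpos (by nlinarith only [hg])
      rw [this]
      push_cast
      have g1 : (0 : ℝ) ≤ ⌊(w : ℝ) * J⌋₊ := Nat.cast_nonneg _
      have g2 : (0 : ℝ) ≤ V := Nat.cast_nonneg _
      linarith only [h3, hdx]
  have hP3 : ⌊(G + x / 2) * J⌋₊ ≤ J := by
    refine Nat.floor_le_of_le ?_
    nlinarith only [hdx, hGx]
  refine col_lab hI hl hD h1 h2 hd.le ?_ (P2 := ⌊(G + x / 2) * J⌋₊) ?_ hP3 hK hb hε ?_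
  · have : (d : ℝ) ≤ h := by linarith only [h3, hdx]
    exact_mod_cast this
  · have h5 : ((⌊(G + x / 2) * J⌋₊ + d : ℕ) : ℝ) ≤ (⌊(w : ℝ) * J⌋₊ + V + h : ℕ) := by
      push_cast at hP2 ⊢
      exact hP2
    have h6 : ⌊(G + x / 2) * J⌋₊ + d ≤ ⌊(w : ℝ) * J⌋₊ + V + h := by exact_mod_cast h5
    omega
  · rintro B' hB' hPB' ⟨ju, jN, hj, hL⟩
    refine hn J hJ1 F A (S.mono (by linarith only [hc]) hS) B' (fun ω hω => hBA ω (hB' ω hω)) ?_
      (Or.inr ⟨by linarith only [hx, hGx], ju, jN, hj, ?_⟩)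
    · refine le_trans ?_ hPB'
      have e1 : Real.exp (-(Kd D + 2 * K₀ / ε)) * (ε / 2) = Real.exp (-C) := by
        have e2 : -C = -(Kd D + 2 * K₀ / ε) + Real.log (ε / 2) := by rw [hC]; ring
        rw [e2, Real.exp_add, Real.exp_log (by positivity)]
      rw [e1]
      refine le_trans ?_ (mul_le_mul_of_nonneg_left hPB (Real.exp_pos _).le)
      rw [← mul_assoc, ← Real.exp_add]
      refine mul_le_mul_of_nonneg_right (Real.exp_le_exp.2 ?_) (Pe_nonneg F.isLaw A)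
      nlinarith only [hKC, hc]
    · rw [hfl]
      exact hL

/-- **Collision lemma, class form, for labels which are almost visible**, in terms of the doubled
law. -/
theorem col_lab_cls {S : PCl 3} {i0 : Fin 3} {w : ℚ} {G : ℝ}
    (hG : PNum S (capS 1 (qTh i0 1 w)) G) {x : ℝ} (hx : 0 < x) (hGx : G + x ≤ 1) {D K₀ ε : ℝ}
    (hD : 1 ≤ D) (hK : 0 < K₀) (hε : 0 < ε) : ∃ c > 0, ∃ J₁ : ℕ, ∀ J ≥ J₁, ∀ (F : Fam 3 J)
      (A : F.Ω → Prop), S.St c J F A → ∀ B : F.Ω → Prop, Sub B A →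
      Real.exp (-(c * J)) * Pe F.p A ≤ Pe F.p B →
      IsLaw (Pool.Agent.H49.Ent.cond F.p B True) → ∀ (iu iN : Fin 3) (V h : ℕ)
      (al nu kN nN a s t : F.Ω → ℝ),
      IPl F B i0 iu iN ⌊(w : ℝ) * J⌋₊ V h D al nu kN nN a s t → V + h ≤ J →
      ⌊(w : ℝ) * J⌋₊ + V ≤ J → x * J ≤ h → (G + x) * J ≤ (⌊(w : ℝ) * J⌋₊ + V + h : ℕ) →
      ∀ (T : Type) (b : F.Ω → T),
      CH (Pool.Agent.H49.Ent.cond F.p B True) b (ptq F J) ≤ K₀ →
      Pool.KAF.Pr (dbl (Pool.Agent.H49.Ent.cond F.p B True) b)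
        {y | |s y.1 - s y.2| ≤ 1 / 2 ^ h} ≤ ε := by
  obtain ⟨c, hc, J₁, H⟩ := col_lab_pe hG hx hGx hD hK hε
  refine ⟨c, hc, J₁, fun J hJ F A hS B hBA hPB hl iu iN V h al nu kN nN a s t hI h1 h2 h3 h4 T b
    hb => ?_⟩
  exact Pr_dbl_self hl (E' := fun x => |s x.1 - s x.2| ≤ 1 / 2 ^ h) (fun x _ _ _ hx => hx)
    (H J hJ F A hS B hBA hPB hl iu iN V h al nu kN nN a s t hI h1 h2 h3 h4 T b hb)

end Pool.HP
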