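import Pool.Agent.H28.HP.ColU
import Pool.Agent.H72.S6B.Stm2

/-!
# (COL) is a theorem
-/

set_option autoImplicit false

namespace Pool.S6B

theorem col_thm : ColStmt :=
  fun _ _ _ _ _ hG hw hwG _ hh hGh hρ B C K₀ _ hε =>
    Pool.HP.col_ufi hG hw hρ hwG hh hGh B C K₀ hε

end Pool.S6B
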