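import Pool.Agent.H28.HP.ColA
import Pool.Agent.H72.S6B.Def

/-!
# The collision lemma for the frames `UFi`
-/

set_option autoImplicit false

namespace Pool.HP

open Finset Real
open Pool.Agent.H49.Ent Pool.Agent.H32.Dense Pool.STK Pool.KA Pool.KSAT Pool.K3 Pool.K2S Pool.PB
  Pool.KS6 Pool.S6N Pool.S6C Pool.S6B

section Adapt

variable {J : ℕ} {F : Fam 3 J} {A : F.Ω → Prop} {i0 iu iN : Fin 3} {v V h : ℕ} {D : ℝ}

/-- **From helper72's frames.** -/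
theorem _root_.Pool.S6B.UFi.ipl {σ : Fin 3 → Fin 3} {wl wa wb : ℕ} {vp : ℕ → ℕ}
    {kap Hu HN : ℕ} {al nu kN nN : (Fin 3 → ℤ) × (ℕ × F.ζ) → ℝ} {a : ℕ → F.Ω → ℝ}
    {s t : F.Ω → ℝ} {B C : ℝ} (hU : UFi F A σ wl wa wb vp kap Hu HN al nu kN nN a s t B C)
    (hal : ∀ ω, A ω → |al (Fam.pt F ω)| ≤ 2) (hkN : ∀ ω, A ω → |kN (Fam.pt F ω)| ≤ 2)
    (hva : wa ≤ v) (hvb : v ≤ wb) (hV : V ≤ vp v) (hVu : V ≤ Hu) (hh : V + h ≤ HN)
    (hh' : V + h ≤ kap) (hBD : B ≤ D) (hCD : C ≤ D) (h3D : 3 ≤ D) :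
    IPl F (fun ω => A ω ∧ 0 < F.p ω) (σ 0) (σ 1) (σ 2) v V h D (fun ω => al (Fam.pt F ω))
      (fun ω => nu (Fam.pt F ω)) (fun ω => kN (Fam.pt F ω)) (fun ω => nN (Fam.pt F ω)) (a v) s
      t := by
  classical
  have hvJ : v ≤ J := hvb.trans hU.wJ
  have mm : ∀ {K : ℝ} {p q : ℕ}, 0 ≤ K → K ≤ D → p ≤ q → K / 2 ^ q ≤ D / 2 ^ p :=
    fun h0 hK hpq => (div_le_div_of_nonneg_left h0 (by positivity)
      (pow_le_pow_right₀ (by norm_num) hpq)).trans
      (div_le_div_of_nonneg_right hK (by positivity))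
  have hB0 : 0 ≤ B := by linarith only [hU, hU.B1]
  have hC0 : 0 ≤ C := by linarith only [hU, hU.C1]
  have hdet : ∀ ω ω', 0 < F.p ω → 0 < F.p ω' → slam F v ω = slam F v ω' →
      (a v ω, s ω, t ω) = (a v ω', s ω', t ω') := by
    intro ω ω' h1 h2 e
    have e1 := hU.slm v hva hvb ω ω' h1 h2 e
    have e2 : slam F wl ω = slam F wl ω' := by
      rw [slam_coarse F (hU.lw.trans hva) hvJ ω, slam_coarse F (hU.lw.trans hva) hvJ ω', e]
    have e3 := hU.slp ω ω' h1 h2 e2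
    have e4 := Prod.ext_iff.mp e3
    have e5 : s ω = s ω' := e4.1
    have e6 : t ω = t ω' := e4.2
    rw [e1, e5, e6]
  refine ⟨fun j => ?_, ⟨fun u => ((al u, nu u), kN u, nN u), fun ω _ => rfl⟩,
    ⟨fun u => if h : ∃ ω, 0 < F.p ω ∧ slam F v ω = u then
      (a v h.choose, s h.choose, t h.choose) else (0, 0, 0), fun ω hω => ?_⟩,
    fun ω hω => (hU.on1 ω hω.1).trans (mm hB0 hBD hVu),
    fun ω hω => (hU.on2 ω hω.1).trans (mm hB0 hBD hh), fun ω hω => hal ω hω.1,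
    fun ω hω => hkN ω hω.1, fun ω hω => (hU.bd ω hω.1).1.trans hBD,
    fun ω hω => (hU.near v hva hvb ω hω.1).trans (mm (by norm_num) h3D hV),
    fun ω hω => (hU.clo ω hω.1).trans (mm hC0 hCD hh')⟩
  · obtain ⟨j', rfl⟩ := hU.bij.2 j
    fin_cases j'
    · exact Or.inl rfl
    · exact Or.inr (Or.inl rfl)
    · exact Or.inr (Or.inr rfl)
  · have hex : ∃ ω', 0 < F.p ω' ∧ slam F v ω' = slam F v ω := ⟨ω, hω.2, rfl⟩
    beta_reduce
    rw [dif_pos hex]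
    exact hdet ω _ hω.2 hex.choose_spec.1 hex.choose_spec.2.symm

end Adapt

/-- **(COL)** Two lines with a common label, which is a function of the exact point up to a bounded
entropy, have transversal planes of directions. -/
theorem col_ufi {S : PCl 3} {i0 : Fin 3} {w : ℚ} {G ρ₀ : ℝ}
    (hG : PNum S (capS 1 (qTh i0 1 w)) G) (hw : 0 ≤ w) (hρ : 0 ≤ ρ₀) (hwG : w + ρ₀ ≤ G) {h : ℝ}
    (hh : 0 < h) (hGh : G + h ≤ 1) (B C K₀ : ℝ) {ε : ℝ} (hε : 0 < ε) :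
    Clp S (fun J F A => IsLaw (Pool.Agent.H49.Ent.cond F.p A True) →
      ∀ (sg : Fin 3 → Fin 3) (wl wa wb : ℕ) (vp : ℕ → ℕ) (kap Hu HN : ℕ)
      (al nu kN nN : (Fin 3 → ℤ) × (ℕ × F.ζ) → ℝ) (a : ℕ → F.Ω → ℝ) (s t : F.Ω → ℝ),
      UFi F A sg wl wa wb vp kap Hu HN al nu kN nN a s t B C → sg 0 = i0 →
      (∀ ω, A ω → |al (Fam.pt F ω)| ≤ 2 ∧ |kN (Fam.pt F ω)| ≤ 2) →
      wa ≤ ⌊(w : ℝ) * J⌋₊ → ⌊(w : ℝ) * J⌋₊ ≤ wb → (ρ₀ - h / 4) * J ≤ vp ⌊(w : ℝ) * J⌋₊ →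
      (ρ₀ - h / 4) * J ≤ Hu → (G - w + h) * J ≤ kap → (G - w + h) * J ≤ HN →
      ∀ (T : Type) (Lb : F.Ω → T) (m : ℕ),
        CH (Pool.Agent.H49.Ent.cond F.p A True) Lb (Fam.pt F) ≤ K₀ →
        (G - w - ρ₀ + h) * J ≤ m →
        Pool.KAF.Pr (dbl (Pool.Agent.H49.Ent.cond F.p A True) Lb)
          {x | |s x.1 - s x.2| < 1 / 2 ^ m} ≤ ε) := by
  obtain ⟨c, hc, J₁, H⟩ := col_lab_pe hG (half_pos hh) (by linarith only [hh, hGh]) (D := max (max B C) 3)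
    (K₀ := max K₀ 1) (ε := ε) (by have := le_max_right (max B C) 3; linarith only [this])
    (by have := le_max_right K₀ 1; linarith) hε
  obtain ⟨J₂, hJ₂⟩ := exists_nat_gt (12 / h)
  refine Clp.of hc (max J₁ J₂) fun J hJ F A hS hl sg wl wa wb vp kap Hu HN al nu kN nN a s t hU
    hs0 hb hwa hwb hvp hHu hkap hHN T Lb m hL hm => ?_
  have hJ1 : J₁ ≤ J := (le_max_left _ _).trans hJ
  have hJ2 : (J₂ : ℝ) ≤ J := by exact_mod_cast (le_max_right _ _).trans hJ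
  have hJh : 12 ≤ h * J := by
    have := hJ₂.trans_le hJ2
    rw [div_lt_iff₀ hh] at this
    linarith only [this]
  have hJ0 : (0 : ℝ) ≤ J := Nat.cast_nonneg J
  have hw' : (0 : ℝ) ≤ w := by exact_mod_cast hw
  obtain ⟨v, hv⟩ : ∃ v, v = ⌊(w : ℝ) * J⌋₊ := ⟨_, rfl⟩
  obtain ⟨V, hV⟩ : ∃ V, V = ⌊(ρ₀ - h / 4) * J⌋₊ := ⟨_, rfl⟩
  obtain ⟨h', hh'⟩ : ∃ h', h' = ⌊(G - w - ρ₀ + h) * J⌋₊ := ⟨_, rfl⟩
  have v1 : (v : ℝ) ≤ w * J := by rw [hv]; exact Nat.floor_le (mul_nonneg hw' hJ0)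
  have v2 : (w : ℝ) * J < v + 1 := by rw [hv]; exact Nat.lt_floor_add_one _
  have V2 : (ρ₀ - h / 4) * J < V + 1 := by rw [hV]; exact Nat.lt_floor_add_one _
  have V3 : (V : ℝ) ≤ ρ₀ * J := by
    rcases le_or_gt 0 (ρ₀ - h / 4) with h0 | h0
    · have := Nat.floor_le (mul_nonneg h0 hJ0)
      rw [← hV] at this
      nlinarith only [hwG, hh, hGh, hJh, hw', h0, this]
    · have e1 : V = 0 := by rw [hV]; exact Nat.floor_of_nonpos (by nlinarith only [h0])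
      rw [e1, Nat.cast_zero]
      positivity
  have g0 : 0 ≤ G - w - ρ₀ + h := by linarith only [hwG, hh]
  have h1 : (h' : ℝ) ≤ (G - w - ρ₀ + h) * J := by rw [hh']; exact Nat.floor_le (mul_nonneg g0 hJ0)
  have h2 : (G - w - ρ₀ + h) * J < h' + 1 := by rw [hh']; exact Nat.lt_floor_add_one _
  have h3 : h * J ≤ (G - w - ρ₀ + h) * J := mul_le_mul_of_nonneg_right (by linarith only [hwG]) hJ0
  have Vh : ((V + h' : ℕ) : ℝ) ≤ (G - w + h) * J := by
    push_cast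
    nlinarith only [V3, h1]
  have cV : V ≤ vp v := by
    rw [hV]
    refine Nat.floor_le_of_le ?_
    rw [hv]
    exact hvp
  have cVu : V ≤ Hu := by
    rw [hV]
    exact Nat.floor_le_of_le hHu
  have cN : V + h' ≤ HN := by
    have := Vh.trans hHN
    exact_mod_cast this
  have ck : V + h' ≤ kap := by
    have := Vh.trans hkap
    exact_mod_cast this
  have cJ : V + h' ≤ J := by
    have : ((V + h' : ℕ) : ℝ) ≤ J := by nlinarith only [v1, Vh, hGh]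
    exact_mod_cast this
  have cvJ : v + V ≤ J := by
    have : ((v + V : ℕ) : ℝ) ≤ J := by
      push_cast
      nlinarith only [hJh, v1, V3, h3, hGh]
    exact_mod_cast this
  have hhm : h' ≤ m := by
    have : (h' : ℝ) ≤ m := h1.trans hm
    exact_mod_cast this
  have hI := hU.ipl (v := v) (V := V) (h := h') (D := max (max B C) 3)
    (fun ω hω => (hb ω hω).1) (fun ω hω => (hb ω hω).2) (by rw [hv]; exact hwa)
    (by rw [hv]; exact hwb) cV cVu cN ck ((le_max_left B C).trans (le_max_left _ _))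
    ((le_max_right B C).trans (le_max_left _ _)) (le_max_right _ _)
  rw [hs0] at hI
  have hcs := cond_supp F.isLaw A
  have hPe : Pe F.p (fun ω => A ω ∧ 0 < F.p ω) = Pe F.p A := by
    classical
    rw [Pe_eq, Pe_eq]
    refine Finset.sum_congr rfl fun ω _ => ?_
    by_cases hA : A ω
    · by_cases h0 : 0 < F.p ω
      · rw [if_pos ⟨hA, h0⟩, if_pos hA]
      · rw [if_neg (fun h => h0 h.2), if_pos hA]
        exact le_antisymm (F.isLaw.nonneg ω) (not_lt.1 h0)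
    · rw [if_neg (fun h => hA h.1), if_neg hA]
  have hexp : Real.exp (-(c * J)) ≤ 1 := Real.exp_le_one_iff.2 (by
    have := mul_nonneg hc.le hJ0
    linarith only [this])
  have key := H J hJ1 F A hS (fun ω => A ω ∧ 0 < F.p ω) (fun ω hω => hω.1) (by
      rw [hPe]
      have := Pe_nonneg F.isLaw A
      nlinarith only [hexp, this]) (by rw [hcs]; exact hl) (sg 1) (sg 2) V h' _ _ _ _ (a v) s t
      (by rw [← hv]; exact hI) cJ (by rw [← hv]; exact cvJ) (by linarith only [hJh, h2, h3]) (by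
        rw [← hv]
        push_cast
        linarith only [hJh, v2, V2, h2]) T Lb (by
        rw [hcs]
        exact hL.trans (le_max_left _ _))
  rw [hcs] at key
  refine Pr_dbl_self hl (E' := fun x => |s x.1 - s x.2| ≤ 1 / 2 ^ h') (fun x _ _ _ hx => ?_) key
  refine hx.le.trans ?_
  exact div_le_div_of_nonneg_left zero_le_one (by positivity)
    (pow_le_pow_right₀ (by norm_num) hhm)

end Pool.HP
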